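import Pool.Agent.J4H97.SG.Wiener

/-!
# Almost periods on long windows
-/

open MeasureTheory Filter Topology Complex
open scoped ENNReal NNReal

namespace Pool.Agent.J4H97.SG

/-- Simultaneous almost periods of finitely many characters are relatively dense. -/
lemma ap_finite {S : Set ℝ} (hS : S.Finite) {ε : ℝ} (hε : 0 < ε) :
    ∃ ℓ > 0, ∀ h : ℝ, ∃ τ : ℝ, |h - τ| ≤ ℓ ∧ ∀ y ∈ S, ‖ek (τ * y) - 1‖ ≤ ε := by
  have := hS.fintype
  set θ : ℝ → (S → ℂ) := fun t y => ek (t * y) with hθ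
  have hb : Bornology.IsBounded (Set.range θ) := by
    rw [isBounded_iff_forall_norm_le]
    refine ⟨1, ?_⟩
    rintro _ ⟨t, rfl⟩
    rw [pi_norm_le_iff_of_nonneg zero_le_one]
    intro y
    simp [hθ]
  have htb : TotallyBounded (Set.range θ) :=
    hb.isCompact_closure.totallyBounded.subset subset_closure
  obtain ⟨t, hts, htf, hcov⟩ := htb.exists_subset (Metric.dist_mem_uniformity hε)
  have hsel : ∀ y : S → ℂ, ∃ s : ℝ, y ∈ t → θ s = y := by
    intro y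
    by_cases hy : y ∈ t
    · obtain ⟨s, hs⟩ := hts hy
      exact ⟨s, fun _ => hs⟩
    · exact ⟨0, fun h => absurd h hy⟩
  choose sel hsel using hsel
  obtain ⟨M, hM⟩ := (htf.image (fun y => |sel y|)).bddAbove
  refine ⟨max M 1, by positivity, fun h => ?_⟩
  have h1 : θ h ∈ ⋃ y ∈ t, {x | (x, y) ∈ {p : (S → ℂ) × (S → ℂ) | dist p.1 p.2 < ε}} :=
    hcov ⟨h, rfl⟩
  simp only [Set.mem_iUnion, Set.mem_ofPred_eq] at h1
  obtain ⟨y, hy, hd⟩ := h1
  refine ⟨h - sel y, ?_, ?_⟩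
  · rw [sub_sub_cancel]
    exact (hM ⟨y, hy, rfl⟩).trans (le_max_left _ _)
  · intro x hx
    rw [← hsel y hy] at hd
    have h2 := (dist_pi_lt_iff hε).1 hd ⟨x, hx⟩
    simp only [hθ] at h2
    rw [dist_eq_norm, ek_sub, norm_mul, norm_ek, one_mul] at h2
    have : (h - sel y) * x = h * x - sel y * x := by ring
    rw [this]
    exact h2.le

/-- Sup bound on a window from an `L²` bound on a slightly larger window. -/
lemma sup_of_int {G : ℝ → ℂ} (hG : Continuous G) {κ ε : ℝ} (hκ : 0 < κ) (hε : 0 < ε)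
    (huc : ∀ ξ ξ' : ℝ, |ξ - ξ'| ≤ κ → ‖G ξ - G ξ'‖ ≤ ε / 2) {a R : ℝ} 
    (hint : ∫ ξ in a..(a + R), ‖G ξ‖ ^ 2 ≤ κ * ε ^ 2 / 8) :
    ∀ ξ, a ≤ ξ → ξ ≤ a + R - κ → ‖G ξ‖ ≤ ε := by
  intro ξ h1 h2
  by_contra hcon
  push Not at hcon
  have hii : ∀ x y : ℝ, IntervalIntegrable (fun ξ => ‖G ξ‖ ^ 2) volume x y := fun x y =>
    (hG.norm.pow 2).intervalIntegrable x y
  have h3 : ∫ η in ξ..(ξ + κ), (ε / 2) ^ 2 ≤ ∫ η in ξ..(ξ + κ), ‖G η‖ ^ 2 := by
    refine intervalIntegral.integral_mono_on (by linarith) (by simp) (hii _ _) ?_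
    intro η hη
    have h4 := huc ξ η (by rw [abs_sub_comm, abs_of_nonneg (by linarith [hη.1])]; linarith [hη.2])
    have h5 : ε / 2 ≤ ‖G η‖ := by
      have := norm_sub_norm_le (G ξ) (G η)
      linarith
    gcongr
  have h6 : ∫ η in ξ..(ξ + κ), ‖G η‖ ^ 2 ≤ ∫ η in a..(a + R), ‖G η‖ ^ 2 := by
    refine intervalIntegral.integral_mono_interval h1 (by linarith) (by linarith) ?_ (hii _ _)
    exact Eventually.of_forall fun η => by positivity
  rw [intervalIntegral.integral_const] at h3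
  simp only [add_sub_cancel_left, smul_eq_mul] at h3
  have : κ * (ε / 2) ^ 2 ≤ κ * ε ^ 2 / 8 := h3.trans (h6.trans hint)
  have hp : 0 < κ * ε ^ 2 := by positivity
  nlinarith

/-- A Fourier-Stieltjes transform is almost periodic, up to `ε`, on arbitrarily long windows. -/
lemma Rep.ap {C : ℝ} {F : ℝ → ℂ} (hF : Rep C F) {ε : ℝ} (hε : 0 < ε) :
    ∃ ℓ > 0, ∀ T : ℝ, ∃ a : ℝ, ∀ h : ℝ, ∃ τ : ℝ, |h - τ| ≤ ℓ ∧
      ∀ ξ, a ≤ ξ → ξ ≤ a + T → a ≤ ξ + τ → ξ + τ ≤ a + T → ‖F (ξ + τ) - F ξ‖ ≤ ε := by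
  have hC := hF.nonneg
  obtain ⟨P, hP, hb, hF⟩ := hF
  -- atoms
  set A : ℕ → Set ℝ := fun n => {y | (1 / (n + 1) : ℝ≥0∞) ≤ P (Prod.fst ⁻¹' {y})} with hA
  have hAfin : ∀ n, (A n).Finite := by
    intro n
    refine Measure.finite_const_le_meas_of_disjoint_iUnion P (ε := (1 / (n + 1) : ℝ≥0∞)) ?_
      (As := fun y => (Prod.fst ⁻¹' {y} : Set (ℝ × ℂ))) ?_ ?_ ?_
    · rw [one_div]
      exact ENNReal.inv_pos.2 (by simp)
    · exact fun y => measurable_fst (measurableSet_singleton y)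
    · intro y y' hne
      refine Disjoint.preimage _ ?_
      simpa using hne
    · exact measure_ne_top _ _
  set B : Set ℝ := ⋃ n, A n with hB
  have hBm : MeasurableSet B := MeasurableSet.iUnion fun n => (hAfin n).measurableSet
  have hBn : ∀ y, y ∉ B → P (Prod.fst ⁻¹' {y}) = 0 := by
    intro y hy
    by_contra h0
    obtain ⟨n, hn⟩ := ENNReal.exists_inv_nat_lt h0
    apply hy
    rw [hB, Set.mem_iUnion]
    refine ⟨n, ?_⟩
    simp only [hA, Set.mem_ofPred_eq, one_div]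
    refine le_trans ?_ hn.le
    exact ENNReal.inv_le_inv.2 (by simp)
  have hAmono : Monotone A := by
    intro n k hnk y hy
    simp only [hA, Set.mem_ofPred_eq, one_div] at hy ⊢
    refine le_trans ?_ hy
    refine ENNReal.inv_le_inv.2 ?_
    gcongr
  have hlim : Tendsto (fun n => P (Prod.fst ⁻¹' (B \ A n))) atTop (𝓝 0) := by
    have h1 : ⋂ n, (Prod.fst ⁻¹' (B \ A n) : Set (ℝ × ℂ)) = ∅ := by
      ext p
      simp only [Set.mem_iInter, Set.mem_preimage, Set.mem_sdiff, Set.mem_empty_iff_false,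
        iff_false, not_forall, not_and, not_not]
      by_cases hp : p.1 ∈ B
      · obtain ⟨n, hn⟩ := Set.mem_iUnion.1 hp
        exact ⟨n, fun _ => hn⟩
      · exact ⟨0, fun h => absurd h hp⟩
    have := tendsto_measure_iInter_atTop (μ := P) (s := fun n => (Prod.fst ⁻¹' (B \ A n) : Set (ℝ × ℂ)))
      (fun n => (measurable_fst (hBm.diff (hAfin n).measurableSet)).nullMeasurableSet)
      (fun n k hnk => Set.preimage_mono (Set.sdiff_subset_sdiff_right (hAmono hnk)))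
      ⟨0, measure_ne_top _ _⟩
    rwa [h1, measure_empty] at this
  -- choose the level
  set ε₁ : ℝ := ε / (8 * (C + 1)) with hε₁
  have hε₁p : 0 < ε₁ := by positivity
  obtain ⟨n, hn⟩ : ∃ n, P (Prod.fst ⁻¹' (B \ A n)) ≤ ENNReal.ofReal ε₁ := by
    have := (hlim.eventually (gt_mem_nhds (show (0 : ℝ≥0∞) < ENNReal.ofReal ε₁ by
      exact ENNReal.ofReal_pos.2 hε₁p)))
    obtain ⟨n, hn⟩ := this.exists
    exact ⟨n, hn.le⟩
  obtain ⟨ℓ, hℓ, hap⟩ := ap_finite (hAfin n) hε₁p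
  -- the continuous part
  set Sc : Set (ℝ × ℂ) := Prod.fst ⁻¹' Bᶜ with hSc
  have hScm : MeasurableSet Sc := measurable_fst hBm.compl
  set m : Measure (ℝ × ℂ) := P.restrict Sc with hm
  have hmb : ∀ᵐ p ∂m, ‖p.2‖ ≤ C := ae_restrict_of_ae hb
  have hdiag : ∀ᵐ q ∂(m.prod m), q.1.1 ≠ q.2.1 := by
    have hms : MeasurableSet {q : (ℝ × ℂ) × (ℝ × ℂ) | q.1.1 = q.2.1} :=
      measurableSet_eq_fun (by fun_prop) (by fun_prop)
    have : (m.prod m) {q : (ℝ × ℂ) × (ℝ × ℂ) | q.1.1 = q.2.1} = 0 := by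
      rw [Measure.measure_prod_null hms]
      have h1 : ∀ᵐ p ∂m, p ∈ Sc := ae_restrict_mem hScm
      filter_upwards [h1] with p hp
      have h2 : P (Prod.fst ⁻¹' {p.1} : Set (ℝ × ℂ)) = 0 := hBn _ hp
      refine measure_mono_null ?_ (Measure.absolutelyContinuous_of_le Measure.restrict_le_self h2)
      intro q hq
      simp only [Set.mem_preimage, Set.mem_ofPred_eq] at hq
      simp [hq]
    rw [ae_iff]
    simpa using this
  set G : ℝ → ℂ := fun ξ => ∫ p, p.2 * ek (ξ * p.1) ∂m with hG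
  obtain ⟨κ, hκ, huc⟩ := unif_cont_aux (P := m) hmb (show (0:ℝ) < (ε / 8) / 2 by positivity)
  have hGc : Continuous G := by
    rw [Metric.continuous_iff]
    intro ξ e he
    obtain ⟨δ, hδ, h1⟩ := unif_cont_aux (P := m) hmb (half_pos he)
    refine ⟨δ, hδ, fun ξ' hx => ?_⟩
    rw [dist_eq_norm]
    refine (h1 _ _ ?_).trans_lt (by linarith)
    rw [← Real.dist_eq]
    exact hx.le
  have hw := wiener hC hmb hdiag
  refine ⟨ℓ, hℓ, fun T => ?_⟩
  set R : ℕ := ⌈T + κ⌉₊ + 1 with hR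
  have hRT : T + κ ≤ R := by
    rw [hR]; push_cast
    linarith [Nat.le_ceil (T + κ)]
  obtain ⟨a, ha⟩ := gap (hGc.norm.pow 2) hw (show 0 < R by omega)
    (show (0:ℝ) < κ * (ε / 8) ^ 2 / 8 by positivity)
  have hsup := sup_of_int hGc hκ (show 0 < ε / 8 by positivity) huc ha
  refine ⟨a, fun h => ?_⟩
  obtain ⟨τ, hτ, hτA⟩ := hap h
  refine ⟨τ, hτ, fun ξ h1 h2 h3 h4 => ?_⟩
  have g1 : ‖G ξ‖ ≤ ε / 8 := hsup ξ h1 (by linarith)
  have g2 : ‖G (ξ + τ)‖ ≤ ε / 8 := hsup (ξ + τ) h3 (by linarith)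
  -- split
  have hsplit : ∀ ξ, F ξ = G ξ + ∫ p in Scᶜ, p.2 * ek (ξ * p.1) ∂P := by
    intro ξ
    rw [hF, hG, hm]
    exact (integral_add_compl hScm (integrable_kernel hb ξ)).symm
  have hD : ‖(∫ p in Scᶜ, p.2 * ek ((ξ + τ) * p.1) ∂P) - ∫ p in Scᶜ, p.2 * ek (ξ * p.1) ∂P‖ ≤
      C * ε₁ + 2 * C * ε₁ := by
    have hbD : ∀ᵐ p ∂(P.restrict Scᶜ), ‖p.2‖ ≤ C := ae_restrict_of_ae hb
    rw [← integral_sub (integrable_kernel hbD _) (integrable_kernel hbD _)]
    have hS1m : MeasurableSet (Prod.fst ⁻¹' (B \ A n) : Set (ℝ × ℂ)) :=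
      measurable_fst (hBm.diff (hAfin n).measurableSet)
    have hbound : ‖∫ p in Scᶜ, (p.2 * ek ((ξ + τ) * p.1) - p.2 * ek (ξ * p.1)) ∂P‖ ≤
        ∫ p in Scᶜ, (C * ε₁ + (Prod.fst ⁻¹' (B \ A n) : Set (ℝ × ℂ)).indicator
          (fun _ => 2 * C) p) ∂P := by
      refine norm_integral_le_of_norm_le ?_ ?_
      · exact (integrable_const _).add ((integrable_const _).indicator hS1m)
      · filter_upwards [hbD, ae_restrict_mem hScm.compl] with p hp hpS
        have e : p.2 * ek ((ξ + τ) * p.1) - p.2 * ek (ξ * p.1) =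
            p.2 * (ek (ξ * p.1) * (ek (τ * p.1) - 1)) := by
          rw [add_mul, ek_add]; ring
        rw [e, norm_mul, norm_mul, norm_ek, one_mul]
        have hpB : p.1 ∈ B := by
          by_contra hh
          exact hpS hh
        by_cases hpA : p.1 ∈ A n
        · have : p ∉ (Prod.fst ⁻¹' (B \ A n) : Set (ℝ × ℂ)) := fun hh => hh.2 hpA
          rw [Set.indicator_of_notMem this, add_zero]
          exact mul_le_mul hp (hτA _ hpA) (norm_nonneg _) hC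
        · have : p ∈ (Prod.fst ⁻¹' (B \ A n) : Set (ℝ × ℂ)) := ⟨hpB, hpA⟩
          rw [Set.indicator_of_mem this]
          have h5 : ‖ek (τ * p.1) - 1‖ ≤ 2 := by
            refine (norm_sub_le _ _).trans ?_
            rw [norm_ek, norm_one]; norm_num
          have h6 : ‖p.2‖ * ‖ek (τ * p.1) - 1‖ ≤ C * 2 := mul_le_mul hp h5 (norm_nonneg _) hC
          have h7 : 0 ≤ C * ε₁ := by positivity
          linarith
    refine hbound.trans ?_
    rw [integral_add (integrable_const _) ((integrable_const _).indicator hS1m)]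
    have i1 : ∫ p in Scᶜ, C * ε₁ ∂P ≤ C * ε₁ := by
      rw [setIntegral_const, smul_eq_mul]
      have : P.real Scᶜ ≤ 1 := measureReal_le_one
      have h7 : 0 ≤ C * ε₁ := by positivity
      nlinarith
    have i2 : ∫ p in Scᶜ, (Prod.fst ⁻¹' (B \ A n) : Set (ℝ × ℂ)).indicator (fun _ => 2 * C) p ∂P ≤
        2 * C * ε₁ := by
      rw [integral_indicator hS1m, setIntegral_const, smul_eq_mul, mul_comm]
      refine mul_le_mul_of_nonneg_left ?_ (by positivity)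
      rw [Measure.real]
      refine ENNReal.toReal_le_of_le_ofReal hε₁p.le ?_
      refine le_trans ?_ hn
      exact Measure.restrict_apply_le _ _
    linarith
  rw [hsplit (ξ + τ), hsplit ξ]
  have e : G (ξ + τ) + (∫ p in Scᶜ, p.2 * ek ((ξ + τ) * p.1) ∂P) -
      (G ξ + ∫ p in Scᶜ, p.2 * ek (ξ * p.1) ∂P) = (G (ξ + τ) - G ξ) +
      ((∫ p in Scᶜ, p.2 * ek ((ξ + τ) * p.1) ∂P) - ∫ p in Scᶜ, p.2 * ek (ξ * p.1) ∂P) := by ring
  rw [e]
  refine (norm_add_le _ _).trans ?_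
  have h8 : ‖G (ξ + τ) - G ξ‖ ≤ ε / 8 + ε / 8 := (norm_sub_le _ _).trans (add_le_add g2 g1)
  have h9 : C * ε₁ + 2 * C * ε₁ ≤ 3 * (ε / 8) := by
    have : (C + 1) * ε₁ = ε / 8 := by rw [hε₁]; field_simp
    nlinarith
  linarith

end Pool.Agent.J4H97.SG
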