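import Pool.Agent.J4H97.SG.Rep

/-!
# Pointwise limits of Fourier-Stieltjes transforms
-/

open MeasureTheory Filter Topology Complex
open scoped FourierTransform Convolution ENNReal NNReal

namespace Pool.Agent.J4H97.SG

/-- Transform of a test function. -/
noncomputable def hat (g : ℝ → ℝ) (x : ℝ) : ℂ := ∫ ξ, g ξ • ek (ξ * x)

lemma hat_eq (g : ℝ → ℝ) : hat g = 𝓕 (fun x => (g x : ℂ)) := by
  ext x
  rw [Real.fourier_real_eq_integral_exp_smul, hat]
  congr 1
  ext ξ
  rw [Complex.real_smul, smul_eq_mul, mul_comm]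
  congr 1
  unfold ek
  congr 2
  push_cast
  ring

lemma hat_zero (g : ℝ → ℝ) : Tendsto (hat g) (cocompact ℝ) (𝓝 0) := by
  rw [hat_eq]
  exact Real.zero_at_infty_fourier _

lemma hat_cont {g : ℝ → ℝ} (hg : Integrable g) : Continuous (hat g) := by
  unfold hat
  refine continuous_of_dominated (bound := fun ξ => ‖g ξ‖) ?_ ?_ hg.norm ?_
  · intro x
    refine hg.aestronglyMeasurable.smul ?_
    exact (continuous_ek.comp (continuous_id.mul continuous_const)).aestronglyMeasurable
  · intro x
    refine Eventually.of_forall fun ξ => ?_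
    rw [norm_smul, norm_ek, mul_one]
  · refine Eventually.of_forall fun ξ => ?_
    exact (continuous_ek.comp (continuous_const.mul continuous_id)).const_smul (g ξ)

lemma hat_bound {g : ℝ → ℝ} (hg : Integrable g) (x : ℝ) : ‖hat g x‖ ≤ ∫ ξ, ‖g ξ‖ := by
  unfold hat
  refine norm_integral_le_of_norm_le hg.norm ?_
  refine Eventually.of_forall fun ξ => ?_
  rw [norm_smul, norm_ek, mul_one]

lemma fubini {P : Measure (ℝ × ℂ)} [IsFiniteMeasure P] {C : ℝ}
    (h : ∀ᵐ p ∂P, ‖p.2‖ ≤ C) {g : ℝ → ℝ} (hg : Integrable g) :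
    ∫ ξ, g ξ • (∫ p, p.2 * ek (ξ * p.1) ∂P) = ∫ p, p.2 * hat g p.1 ∂P := by
  have h1 : ∫ ξ, g ξ • (∫ p, p.2 * ek (ξ * p.1) ∂P) =
      ∫ ξ, ∫ p, g ξ • (p.2 * ek (ξ * p.1)) ∂P := by
    congr 1
    ext ξ
    rw [integral_smul]
  rw [h1, integral_integral_swap]
  · congr 1
    ext p
    unfold hat
    rw [← integral_const_mul]
    congr 1
    ext ξ
    rw [mul_smul_comm]
  · have hb : ∀ᵐ q ∂((volume : Measure ℝ).prod P), ‖q.2.2‖ ≤ C :=
      Measure.quasiMeasurePreserving_snd.ae h
    have hg' : Integrable (fun q : ℝ × (ℝ × ℂ) => C * ‖g q.1‖) ((volume : Measure ℝ).prod P) := by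
      exact (hg.norm.comp_fst P).const_mul C
    refine hg'.mono' ?_ ?_
    · have h2 : Measurable (fun q : ℝ × (ℝ × ℂ) => q.2.2 * ek (q.1 * q.2.1)) := by
        refine Measurable.mul (by fun_prop) (measurable_ek.comp (by fun_prop))
      have h3 : AEStronglyMeasurable (fun q : ℝ × (ℝ × ℂ) => g q.1)
          ((volume : Measure ℝ).prod P) := hg.aestronglyMeasurable.comp_fst
      exact h3.smul h2.aestronglyMeasurable
    · filter_upwards [hb] with q hq
      simp only [Function.uncurry]
      rw [norm_smul, norm_mul, norm_ek, mul_one, mul_comm]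
      exact mul_le_mul_of_nonneg_right hq (norm_nonneg _)

/-- Compactification of the line. -/
noncomputable def kap (x : ℝ) : ℝ := x / (1 + |x|)

noncomputable def kapinv (y : ℝ) : ℝ := y / (1 - |y|)

lemma abs_kap_lt (x : ℝ) : |kap x| < 1 := by
  unfold kap
  rw [abs_div, abs_of_pos (show (0:ℝ) < 1 + |x| by positivity), div_lt_one (by positivity)]
  linarith

lemma kapinv_kap (x : ℝ) : kapinv (kap x) = x := by
  unfold kapinv
  have h : (0:ℝ) < 1 + |x| := by positivity
  have : 1 - |kap x| = 1 / (1 + |x|) := by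
    unfold kap
    rw [abs_div, abs_of_pos h]
    field_simp
    ring
  rw [this]
  unfold kap
  field_simp

lemma measurable_kap : Measurable kap := by
  unfold kap
  exact measurable_id.div (measurable_const.add measurable_id.abs)

lemma measurable_kapinv : Measurable kapinv := by
  unfold kapinv
  exact measurable_id.div (measurable_const.sub measurable_id.abs)

/-- Extension of a function vanishing at infinity. -/
noncomputable def ext (w : ℝ → ℂ) (y : ℝ) : ℂ := if |y| < 1 then w (kapinv y) else 0

lemma continuous_ext {w : ℝ → ℂ} (hw : Continuous w) (h0 : Tendsto w (cocompact ℝ) (𝓝 0)) :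
    Continuous (ext w) := by
  rw [continuous_iff_continuousAt]
  intro y
  by_cases hy : |y| < 1
  · have h1 : ext w =ᶠ[𝓝 y] fun y => w (kapinv y) := by
      have : ∀ᶠ y' in 𝓝 y, |y'| < 1 := (continuous_abs.tendsto y).eventually (gt_mem_nhds hy)
      filter_upwards [this] with y' hy'
      simp [ext, hy']
    rw [continuousAt_congr h1]
    refine hw.continuousAt.comp ?_
    unfold kapinv
    refine ContinuousAt.div continuousAt_id (by fun_prop) (by linarith)
  · push Not at hy
    have hval : ext w y = 0 := by simp [ext, not_lt.2 hy]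
    rw [ContinuousAt, hval, Metric.tendsto_nhds]
    intro ε hε
    rw [Metric.tendsto_nhds] at h0
    have h1 := h0 ε hε
    rw [Filter.Eventually, mem_cocompact] at h1
    obtain ⟨K, hK, hKs⟩ := h1
    obtain ⟨R, hR⟩ := hK.isBounded.exists_norm_le
    have hR' : ∀ x : ℝ, |R| < |x| → dist (w x) 0 < ε := by
      intro x hx
      have : x ∈ Kᶜ := by
        intro hxK
        have := hR x hxK
        rw [Real.norm_eq_abs] at this
        have := le_abs_self R
        linarith
      exact hKs this
    have hlt : |R| / (1 + |R|) < |y| := by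
      refine lt_of_lt_of_le ?_ hy
      rw [div_lt_one (by positivity)]
      linarith
    have h2 : ∀ᶠ y' in 𝓝 y, |R| / (1 + |R|) < |y'| :=
      (continuous_abs.tendsto y).eventually (lt_mem_nhds hlt)
    filter_upwards [h2] with y' hy'
    by_cases h3 : |y'| < 1
    · simp only [ext, h3, if_true]
      apply hR'
      unfold kapinv
      rw [abs_div, abs_of_pos (show (0:ℝ) < 1 - |y'| by linarith), lt_div_iff₀ (by linarith)]
      rw [div_lt_iff₀ (by positivity)] at hy'
      nlinarith [abs_nonneg R]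
    · simp [ext, h3, hε]

/-- Pointwise limits of uniformly bounded Fourier-Stieltjes transforms agree almost everywhere
with a Fourier-Stieltjes transform. -/
theorem rep_limit {C : ℝ} (Fn : ℕ → ℝ → ℂ) (h : ∀ n, Rep C (Fn n)) (F : ℝ → ℂ)
    (hlim : ∀ ξ, Tendsto (fun n => Fn n ξ) atTop (𝓝 (F ξ))) :
    ∃ G, Rep C G ∧ G =ᵐ[volume] F := by
  have hC : 0 ≤ C := (h 0).nonneg
  have hFnb := fun n => (h n).norm_le
  have hFnc := fun n => (h n).continuous
  choose P hP hb hF using h
  set X := (Set.Icc (-1:ℝ) 1) × (Metric.closedBall (0:ℂ) C) with hX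
  -- the projection to the compact space
  set pr : ℝ × ℂ → X := fun p =>
    (⟨kap p.1, by have := abs_kap_lt p.1; rw [abs_lt] at this; exact ⟨this.1.le, this.2.le⟩⟩,
     ⟨if ‖p.2‖ ≤ C then p.2 else 0, by
        rw [mem_closedBall_zero_iff]
        split_ifs with hh
        · exact hh
        · simpa using hC⟩) with hpr
  have hprm : Measurable pr := by
    refine Measurable.prodMk ?_ ?_
    · exact (measurable_kap.comp measurable_fst).subtype_mk
    · refine Measurable.subtype_mk ?_
      exact Measurable.ite (measurableSet_le (by fun_prop) (by fun_prop)) measurable_snd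
        measurable_const
  have hpm : ∀ n, IsProbabilityMeasure ((P n).map pr) := fun n =>
    have := hP n
    Measure.isProbabilityMeasure_map hprm.aemeasurable
  let ν : ℕ → ProbabilityMeasure X := fun n => ⟨(P n).map pr, hpm n⟩
  obtain ⟨Q, -, U, hU, hUν⟩ : ∃ ν' ∈ (Set.univ : Set (ProbabilityMeasure X)), ∃ U : Ultrafilter ℕ,
      (U : Filter ℕ) ≤ atTop ∧ Tendsto ν U (𝓝 ν') := by
    obtain ⟨ν', h1, h2⟩ := (isCompact_univ (X := ProbabilityMeasure X)).ultrafilter_le_nhds
      (Ultrafilter.map ν (Filter.hyperfilter ℕ)) (by simp)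
    refine ⟨ν', h1, Filter.hyperfilter ℕ, ?_, h2⟩
    rw [← Nat.cofinite_eq_atTop]
    exact Filter.hyperfilter_le_cofinite
  rw [ProbabilityMeasure.tendsto_iff_forall_integral_rclike_tendsto ℂ] at hUν
  -- the way back
  set R : X → ℝ × ℂ := fun q => if |q.1.1| < 1 then (kapinv q.1.1, q.2.1) else (0, 0) with hR
  have hRm : Measurable R := by
    refine Measurable.ite (measurableSet_lt (by fun_prop) (by fun_prop)) ?_ measurable_const
    exact (measurable_kapinv.comp (measurable_subtype_coe.comp measurable_fst)).prodMk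
      (measurable_subtype_coe.comp measurable_snd)
  have hRb : ∀ q, ‖(R q).2‖ ≤ C := by
    intro q
    simp only [hR]
    split_ifs
    · exact mem_closedBall_zero_iff.1 q.2.2
    · simpa using hC
  set PQ : Measure (ℝ × ℂ) := (Q : Measure X).map R with hPQ
  have hPQp : IsProbabilityMeasure PQ := Measure.isProbabilityMeasure_map hRm.aemeasurable
  have hPQb : ∀ᵐ p ∂PQ, ‖p.2‖ ≤ C := by
    rw [hPQ, ae_map_iff hRm.aemeasurable (measurableSet_le (by fun_prop) (by fun_prop))]
    exact Eventually.of_forall hRb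
  set G : ℝ → ℂ := fun ξ => ∫ p, p.2 * ek (ξ * p.1) ∂PQ with hG
  have hGrep : Rep C G := ⟨PQ, hPQp, hPQb, fun ξ => rfl⟩
  refine ⟨G, hGrep, ?_⟩
  have hFm : Measurable F :=
    measurable_of_tendsto_metrizable (fun n => (hFnc n).measurable) (tendsto_pi_nhds.2 hlim)
  have hFb : ∀ ξ, ‖F ξ‖ ≤ C := fun ξ =>
    le_of_tendsto (hlim ξ).norm (Eventually.of_forall fun n => hFnb n ξ)
  refine ae_eq_of_integral_contDiff_smul_eq ?_ ?_ ?_
  · exact (memLp_top_of_bound hGrep.continuous.aestronglyMeasurable C
      (Eventually.of_forall hGrep.norm_le)).locallyIntegrable le_top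
  · exact (memLp_top_of_bound hFm.aestronglyMeasurable C
      (Eventually.of_forall hFb)).locallyIntegrable le_top
  intro g hg hgc
  have hgi : Integrable g := hg.continuous.integrable_of_hasCompactSupport hgc
  have hc := continuous_ext (hat_cont hgi) (hat_zero g)
  -- test function on X
  have hTc : Continuous (fun q : X => (q.2.1 : ℂ) * ext (hat g) q.1.1) :=
    (continuous_subtype_val.comp continuous_snd).mul
      (hc.comp (continuous_subtype_val.comp continuous_fst))
  let T : BoundedContinuousFunction X ℂ := BoundedContinuousFunction.mkOfCompact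
    ⟨fun q => q.2.1 * ext (hat g) q.1.1, hTc⟩
  have hT1 : ∀ q, T q = (R q).2 * hat g (R q).1 := by
    intro q
    change q.2.1 * ext (hat g) q.1.1 = _
    simp only [hR, ext]
    split_ifs <;> simp
  have hT2 : ∀ p : ℝ × ℂ, ‖p.2‖ ≤ C → T (pr p) = p.2 * hat g p.1 := by
    intro p hp
    change (if ‖p.2‖ ≤ C then p.2 else 0) * ext (hat g) (kap p.1) = _
    simp only [hp, if_true, ext, abs_kap_lt, kapinv_kap]
  have e1 : ∀ n, ∫ ξ, g ξ • Fn n ξ = ∫ q, T q ∂(ν n : Measure X) := by
    intro n
    have := hP n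
    have e : ∫ q, T q ∂(ν n : Measure X) = ∫ p, T (pr p) ∂(P n) :=
      integral_map hprm.aemeasurable T.continuous.aestronglyMeasurable
    rw [e]
    simp only [hF]
    rw [fubini (hb n) hgi]
    refine integral_congr_ae ?_
    filter_upwards [hb n] with p hp
    rw [hT2 p hp]
  have e2 : ∫ ξ, g ξ • G ξ = ∫ q, T q ∂(Q : Measure X) := by
    rw [hG]
    rw [fubini hPQb hgi, hPQ, integral_map hRm.aemeasurable]
    · congr 1
      ext q
      rw [hT1]
    · exact (measurable_snd.mul ((hat_cont hgi).measurable.comp measurable_fst)).aestronglyMeasurable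
  have l1 : Tendsto (fun n => ∫ ξ, g ξ • Fn n ξ) U (𝓝 (∫ ξ, g ξ • G ξ)) := by
    simp only [e1, e2]
    exact hUν T
  have l2 : Tendsto (fun n => ∫ ξ, g ξ • Fn n ξ) atTop (𝓝 (∫ ξ, g ξ • F ξ)) := by
    refine tendsto_integral_of_dominated_convergence (fun ξ => C * ‖g ξ‖) ?_ (hgi.norm.const_mul C)
      ?_ ?_
    · intro n
      exact (hg.continuous.smul (hFnc n)).aestronglyMeasurable
    · intro n
      refine Eventually.of_forall fun ξ => ?_
      rw [norm_smul, mul_comm]
      exact mul_le_mul_of_nonneg_right (hFnb n ξ) (norm_nonneg _)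
    · refine Eventually.of_forall fun ξ => ?_
      exact (hlim ξ).const_smul _
  exact tendsto_nhds_unique l1 (l2.mono_left hU)

end Pool.Agent.J4H97.SG
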