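import Pool.Agent.J4H97.SG.AP

/-!
# The core argument

There is no function `r ≥ 0`, continuous, non zero, vanishing at infinity, such that the functions
`r(ξ)^{is}`, `0 ≤ s ≤ 1/2`, are (where `r > 0`) Fourier-Stieltjes transforms of measures of
uniformly bounded variation.
-/

open MeasureTheory Filter Topology Complex
open scoped ENNReal NNReal

namespace Pool.Agent.J4H97.SG

/-- The unimodular exponential. -/
noncomputable def eI (x : ℝ) : ℂ := Complex.exp ((x : ℂ) * I)

lemma eI_zero : eI 0 = 1 := by simp [eI]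

@[simp] lemma norm_eI (x : ℝ) : ‖eI x‖ = 1 := Complex.norm_exp_ofReal_mul_I _

lemma eI_add (x y : ℝ) : eI (x + y) = eI x * eI y := by
  unfold eI
  rw [← Complex.exp_add]
  congr 1
  push_cast
  ring

lemma continuous_eI : Continuous eI := by
  unfold eI
  fun_prop

lemma eI_sub (x y : ℝ) : eI x - eI y = eI y * (eI (x - y) - 1) := by
  rw [mul_sub, ← eI_add, mul_one]
  congr 2
  ring

lemma eI_neg (x : ℝ) : eI (-x) = (starRingEnd ℂ) (eI x) := by
  unfold eI
  rw [← Complex.exp_conj, map_mul, Complex.conj_I, Complex.conj_ofReal]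
  congr 1
  push_cast
  ring

lemma norm_eI_neg_sub_one (x : ℝ) : ‖eI (-x) - 1‖ = ‖eI x - 1‖ := by
  have : eI (-x) - 1 = (starRingEnd ℂ) (eI x - 1) := by rw [eI_neg]; simp
  rw [this, RCLike.norm_conj]

lemma norm_eI_sub_one_le (x : ℝ) : ‖eI x - 1‖ ≤ |x| := by
  have := Real.norm_exp_I_mul_ofReal_sub_one_le (x := x)
  unfold eI
  rw [mul_comm]
  simpa using this

lemma eI_pi : eI Real.pi = -1 := by
  unfold eI
  exact Complex.exp_pi_mul_I

/-- Baire category on an interval. -/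
lemma baire_Icc {α β : ℝ} (h : α < β) (S : ℕ → Set ℝ) (hc : ∀ k, IsClosed (S k))
    (hu : ∀ s ∈ Set.Icc α β, ∃ k, s ∈ S k) :
    ∃ k s₁ s₂, α ≤ s₁ ∧ s₁ < s₂ ∧ s₂ ≤ β ∧ Set.Icc s₁ s₂ ⊆ S k := by
  have hne : Nonempty (Set.Icc α β) := ⟨⟨α, le_refl _, h.le⟩⟩
  have hcl : ∀ k, IsClosed ((Subtype.val : Set.Icc α β → ℝ) ⁻¹' S k) := fun k =>
    (hc k).preimage continuous_subtype_val
  have hun : (⋃ k, (Subtype.val : Set.Icc α β → ℝ) ⁻¹' S k) = Set.univ := by
    ext x
    simp only [Set.mem_iUnion, Set.mem_preimage, Set.mem_univ, iff_true]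
    exact hu x x.2
  obtain ⟨k, x, hx⟩ := nonempty_interior_of_iUnion_of_closed hcl hun
  rw [mem_interior_iff_mem_nhds, Metric.mem_nhds_iff] at hx
  obtain ⟨ε, hε, hball⟩ := hx
  refine ⟨k, max α (x - ε / 2), min β (x + ε / 2), le_max_left _ _, ?_, min_le_left _ _, ?_⟩
  · have h1 := x.2.1
    have h2 := x.2.2
    rw [max_lt_iff, lt_min_iff, lt_min_iff]
    refine ⟨⟨h, by linarith⟩, by linarith, by linarith⟩
  · intro s hs
    have h1 : α ≤ s := (le_max_left _ _).trans hs.1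
    have h2 : s ≤ β := hs.2.trans (min_le_left _ _)
    have h3 : x - ε / 2 ≤ s := (le_max_right _ _).trans hs.1
    have h4 : s ≤ x + ε / 2 := hs.2.trans (min_le_right _ _)
    have : (⟨s, h1, h2⟩ : Set.Icc α β) ∈ Metric.ball x ε := by
      rw [Metric.mem_ball, Subtype.dist_eq, Real.dist_eq, abs_lt]
      constructor <;> simp only <;> linarith
    exact hball this

lemma osc_bound {δ s₁ s₂ : ℝ} (hs : s₁ < s₂)
    (h : ∀ s ∈ Set.Icc s₁ s₂, ‖eI (s * δ) - 1‖ ≤ 1 / 2) : |δ| ≤ Real.pi / (s₂ - s₁) := by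
  by_contra hcon
  push Not at hcon
  have hpos : 0 < s₂ - s₁ := sub_pos.2 hs
  have hδ : 0 < |δ| := lt_of_le_of_lt (by have := Real.pi_pos; positivity) hcon
  have hδ0 : δ ≠ 0 := abs_pos.1 hδ
  rw [div_lt_iff₀ hpos] at hcon
  have h1 := h s₁ ⟨le_refl _, hs.le⟩
  have h2 := h (s₁ + Real.pi / |δ|) ⟨by have := Real.pi_pos; linarith [div_nonneg this.le hδ.le], by
    have : Real.pi / |δ| ≤ s₂ - s₁ := by
      rw [div_le_iff₀ hδ]; linarith
    linarith⟩
  have h3 : eI ((s₁ + Real.pi / |δ|) * δ) = - eI (s₁ * δ) := by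
    rw [add_mul, eI_add]
    have : eI (Real.pi / |δ| * δ) = -1 := by
      rcases lt_or_gt_of_ne hδ0 with h0 | h0
      · rw [abs_of_neg h0]
        have : Real.pi / -δ * δ = -Real.pi := by field_simp
        rw [this, eI_neg, eI_pi]
        simp
      · rw [abs_of_pos h0]
        have : Real.pi / δ * δ = Real.pi := by field_simp
        rw [this, eI_pi]
    rw [this]; ring
  rw [h3] at h2
  have h4 : ‖(2:ℂ)‖ ≤ 1 := by
    have : (2:ℂ) = -((eI (s₁ * δ) - 1) + (-eI (s₁ * δ) - 1)) := by ring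
    rw [this, norm_neg]
    refine (norm_add_le _ _).trans ?_
    linarith
  norm_num at h4

/-- Continuity fixes the branch of the argument. -/
lemma branch_aux {v : ℝ → ℝ} {x : ℝ} (hx : 0 ≤ x) (hv : ContinuousOn v (Set.Icc 0 x))
    (h : ∀ η ∈ Set.Icc 0 x, ‖eI (v η) - 1‖ ≤ 1 / 2) : v x - v 0 ≤ 2 * Real.pi := by
  by_contra hcon
  push Not at hcon
  have hpi := Real.pi_pos
  set k : ℤ := ⌈(v 0 / Real.pi - 1) / 2⌉ with hk
  have h1 : (v 0 / Real.pi - 1) / 2 ≤ k := Int.le_ceil _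
  have h2 : (k : ℝ) < (v 0 / Real.pi - 1) / 2 + 1 := Int.ceil_lt_add_one _
  have e : Real.pi * (v 0 / Real.pi) = v 0 := by field_simp
  have h3 : v 0 ≤ (2 * k + 1) * Real.pi := by nlinarith
  have h4 : (2 * k + 1) * Real.pi ≤ v x := by nlinarith
  obtain ⟨η, hη, hη2⟩ := intermediate_value_Icc hx hv ⟨h3, h4⟩
  have h5 := h η hη
  rw [hη2] at h5
  have h6 : eI ((2 * k + 1) * Real.pi) = -1 := by
    have : ((2 * k + 1) * Real.pi : ℝ) = Real.pi + k * (2 * Real.pi) := by ring
    rw [this, eI_add, eI_pi]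
    have : eI (k * (2 * Real.pi)) = 1 := by
      unfold eI
      have := Complex.exp_int_mul_two_pi_mul_I k
      rw [← this]
      congr 1
      push_cast
      ring
    rw [this, mul_one]
  rw [h6] at h5
  norm_num at h5

lemma branch {v : ℝ → ℝ} {x : ℝ} (hx : 0 ≤ x) (hv : ContinuousOn v (Set.Icc 0 x))
    (h : ∀ η ∈ Set.Icc 0 x, ‖eI (v η) - 1‖ ≤ 1 / 2) : |v x - v 0| ≤ 2 * Real.pi := by
  rw [abs_le]
  constructor
  · have := branch_aux (v := fun η => - v η) hx hv.neg (fun η hη => by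
      rw [norm_eI_neg_sub_one]; exact h η hη)
    linarith
  · exact branch_aux hx hv h

/-- Hyers-Ulam stability on an interval. -/
lemma hyers {f : ℝ → ℝ} {T B : ℝ} (hT : 0 < T) (hf : ContinuousOn f (Set.Icc 0 T))
    (h : ∀ x y, 0 ≤ x → 0 ≤ y → x + y ≤ T → |f (x + y) - f x - f y| ≤ B) :
    ∀ x ∈ Set.Icc 0 T, |f x - (f T / T) * x| ≤ 3 * B := by
  set c := f T / T with hc
  set g : ℝ → ℝ := fun x => f x - c * x with hg
  have hgc : ContinuousOn (fun x => |g x|) (Set.Icc 0 T) := (hf.sub (by fun_prop)).abs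
  have hgT : g T = 0 := by simp only [hg, hc]; field_simp; ring
  have hgh : ∀ x y, 0 ≤ x → 0 ≤ y → x + y ≤ T → |g (x + y) - g x - g y| ≤ B := by
    intro x y hx hy hxy
    have := h x y hx hy hxy
    have e : g (x + y) - g x - g y = f (x + y) - f x - f y := by simp only [hg]; ring
    rwa [e]
  obtain ⟨z, hz, hzmax⟩ := isCompact_Icc.exists_isMaxOn ⟨0, ⟨le_refl _, hT.le⟩⟩ hgc
  have hB : 0 ≤ B := (abs_nonneg _).trans (hgh 0 0 (le_refl _) (le_refl _) (by linarith))
  have hzm : ∀ x ∈ Set.Icc 0 T, |g x| ≤ |g z| := fun x hx => hzmax hx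
  have key : ∀ y, 0 ≤ y → y ≤ T / 2 → 2 * |g y| ≤ |g z| + B := by
    intro y hy hyT
    have h1 := hgh y y hy hy (by linarith)
    have h2 := hzm (y + y) ⟨by linarith, by linarith⟩
    have h3 : 2 * |g y| = |g y + g y| := by rw [← two_mul, abs_mul]; norm_num
    have h4 : |g y + g y| ≤ |g (y + y)| + |g (y + y) - g y - g y| := by
      have : g y + g y = g (y + y) - (g (y + y) - g y - g y) := by ring
      calc |g y + g y| = |g (y + y) - (g (y + y) - g y - g y)| := by rw [← this]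
        _ ≤ _ := abs_sub _ _
    linarith
  have hK : |g z| ≤ 3 * B := by
    by_cases hzT : z ≤ T / 2
    · have := key z hz.1 hzT
      linarith
    · push Not at hzT
      have h1 := hgh z (T - z) hz.1 (by linarith [hz.2]) (by linarith)
      have h2 := key (T - z) (by linarith [hz.2]) (by linarith)
      rw [add_sub_cancel, hgT] at h1
      have h3 : |g z| ≤ |0 - g z - g (T - z)| + |g (T - z)| := by
        have : g z = -((0 - g z - g (T - z)) + g (T - z)) := by ring
        calc |g z| = |-((0 - g z - g (T - z)) + g (T - z))| := by rw [← this]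
          _ ≤ _ := by rw [abs_neg]; exact abs_add_le _ _
      linarith
  exact fun x hx => (hzm x hx).trans hK

/-- Chaining of increments. -/
lemma chain {L : ℝ → ℝ} {h₀ M : ℝ} (h : ∀ ξ ξ' : ℝ, |ξ - ξ'| ≤ h₀ → |L ξ - L ξ'| ≤ M) (n : ℕ) :
    ∀ ξ ξ' : ℝ, |ξ - ξ'| ≤ n * h₀ → |L ξ - L ξ'| ≤ n * M := by
  induction n with
  | zero =>
    intro ξ ξ' hx
    simp only [Nat.cast_zero, zero_mul] at *
    have : ξ - ξ' = 0 := abs_eq_zero.1 (le_antisymm hx (abs_nonneg _))
    rw [sub_eq_zero.1 this]; simp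
  | succ n ih =>
    intro ξ ξ' hx
    set y := ξ + (ξ' - ξ) / (n + 1) with hy
    have hn : (0:ℝ) < (n:ℝ) + 1 := by positivity
    have h1 : |ξ - y| ≤ h₀ := by
      have : ξ - y = (ξ - ξ') / (n + 1) := by rw [hy]; ring
      rw [this, abs_div, abs_of_pos hn, div_le_iff₀ hn]
      push_cast at hx
      linarith
    have h2 : |y - ξ'| ≤ n * h₀ := by
      have : y - ξ' = (ξ - ξ') * (n / (n + 1)) := by rw [hy]; field_simp; ring
      rw [this, abs_mul, abs_of_nonneg (show (0:ℝ) ≤ (n:ℝ) / (n + 1) by positivity)]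
      push_cast at hx
      calc |ξ - ξ'| * (n / (n + 1)) ≤ ((n + 1) * h₀) * (n / (n + 1)) := by gcongr
        _ = n * h₀ := by field_simp
    have h3 := h _ _ h1
    have h4 := ih _ _ h2
    calc |L ξ - L ξ'| = |(L ξ - L y) + (L y - L ξ')| := by congr 1; ring
      _ ≤ |L ξ - L y| + |L y - L ξ'| := abs_add_le _ _
      _ ≤ M + n * M := add_le_add h3 h4
      _ = _ := by push_cast; ring

lemma chain' {L : ℝ → ℝ} {h₀ M : ℝ} (hh : 0 < h₀)
    (h : ∀ ξ ξ' : ℝ, |ξ - ξ'| ≤ h₀ → |L ξ - L ξ'| ≤ M) (ξ ξ' : ℝ) :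
    |L ξ - L ξ'| ≤ (|ξ - ξ'| / h₀ + 1) * M := by
  have hM : 0 ≤ M := (abs_nonneg _).trans (h 0 0 (by simpa using hh.le))
  have h1 := chain h ⌈|ξ - ξ'| / h₀⌉₊ ξ ξ' (by
    rw [← div_le_iff₀ hh]; exact Nat.le_ceil _)
  refine h1.trans (mul_le_mul_of_nonneg_right ?_ hM)
  exact (Nat.ceil_lt_add_one (by positivity)).le

/-- On arbitrarily long windows `L` is nearly additive. -/
lemma near_additive {L : ℝ → ℝ} (hL : Continuous L) {C h₀ M : ℝ} (hh : 0 < h₀)
    (hinc : ∀ ξ ξ' : ℝ, |ξ - ξ'| ≤ h₀ → |L ξ - L ξ'| ≤ M)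
    (hrep : Rep C (fun ξ => eI ((1/2) * L ξ))) :
    ∃ B : ℝ, ∀ T : ℝ, ∃ a : ℝ, ∀ x y, 0 ≤ x → 0 ≤ y → x + y ≤ T →
      |(L (a + (x + y)) - L a) - (L (a + x) - L a) - (L (a + y) - L a)| ≤ B := by
  obtain ⟨ℓ, hℓ, hap⟩ := hrep.ap (show (0:ℝ) < 1 / 2 by norm_num)
  have hM : 0 ≤ M := (abs_nonneg _).trans (hinc 0 0 (by simpa using hh.le))
  refine ⟨4 * Real.pi + 2 * ((ℓ / h₀ + 1) * M), fun T => ?_⟩
  obtain ⟨w, hw⟩ := hap (T + 2 * ℓ)
  refine ⟨w + ℓ, fun x y hx hy hxy => ?_⟩
  obtain ⟨τ, hτ, hτ2⟩ := hw y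
  rw [abs_le] at hτ
  set a := w + ℓ with ha
  set u : ℝ → ℝ := fun η => (1/2) * (L (a + η + τ) - L (a + η)) with hu
  have hub := branch (v := u) hx (by
    have : Continuous u := by
      simp only [hu]
      fun_prop
    exact this.continuousOn) (fun η hη => by
      have := hτ2 (a + η) (by linarith [hη.1]) (by linarith [hη.2]) (by linarith [hη.1, hτ.2])
        (by linarith [hη.2, hτ.1])
      rw [eI_sub, norm_mul, norm_eI, one_mul] at this
      have e : (1/2) * L (a + η + τ) - (1/2) * L (a + η) = u η := by simp only [hu]; ring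
      rwa [e] at this)
  have i1 : |L (a + x + y) - L (a + x + τ)| ≤ (ℓ / h₀ + 1) * M := by
    refine (chain' hh hinc _ _).trans (mul_le_mul_of_nonneg_right ?_ hM)
    have : |a + x + y - (a + x + τ)| ≤ ℓ := by
      rw [abs_le]; constructor <;> linarith [hτ.1, hτ.2]
    gcongr
  have i2 : |L (a + y) - L (a + τ)| ≤ (ℓ / h₀ + 1) * M := by
    refine (chain' hh hinc _ _).trans (mul_le_mul_of_nonneg_right ?_ hM)
    have : |a + y - (a + τ)| ≤ ℓ := by
      rw [abs_le]; constructor <;> linarith [hτ.1, hτ.2]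
    gcongr
  have e : (L (a + (x + y)) - L a) - (L (a + x) - L a) - (L (a + y) - L a) =
      2 * (u x - u 0) + (L (a + x + y) - L (a + x + τ)) - (L (a + y) - L (a + τ)) := by
    simp only [hu, add_zero]
    rw [show a + (x + y) = a + x + y by ring]
    ring
  rw [e]
  have t1 := abs_sub (2 * (u x - u 0) + (L (a + x + y) - L (a + x + τ))) (L (a + y) - L (a + τ))
  have t2 := abs_add_le (2 * (u x - u 0)) (L (a + x + y) - L (a + x + τ))
  have t3 : |2 * (u x - u 0)| = 2 * |u x - u 0| := by rw [abs_mul]; norm_num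
  linarith

/-- There are a slope and arbitrarily long windows on which `L` is linear up to a constant. -/
lemma slope {L : ℝ → ℝ} (hL : Continuous L) {C h₀ M : ℝ} (hh : 0 < h₀)
    (hinc : ∀ ξ ξ' : ℝ, |ξ - ξ'| ≤ h₀ → |L ξ - L ξ'| ≤ M)
    (hrep : Rep C (fun ξ => eI ((1/2) * L ξ))) :
    ∃ lam B : ℝ, 0 < B ∧ ∀ T : ℕ, ∃ a : ℝ, ∀ x ∈ Set.Icc (0:ℝ) T,
      |L (a + x) - L a - lam * x| ≤ B := by
  obtain ⟨B₀, hB₀⟩ := near_additive hL hh hinc hrep
  have hB₀p : 0 ≤ B₀ := by
    obtain ⟨a, ha⟩ := hB₀ 0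
    exact (abs_nonneg _).trans (ha 0 0 (le_refl _) (le_refl _) (by norm_num))
  choose a ha using fun n : ℕ => hB₀ (n + 1)
  set lam : ℕ → ℝ := fun n => (L (a n + (n + 1)) - L (a n)) / (n + 1) with hlam
  have h1 : ∀ n : ℕ, ∀ x ∈ Set.Icc (0:ℝ) (n + 1), |L (a n + x) - L (a n) - lam n * x| ≤ 3 * B₀ := by
    intro n
    exact hyers (f := fun x => L (a n + x) - L (a n)) (by positivity)
      (by have : Continuous (fun x => L (a n + x) - L (a n)) := by fun_prop
          exact this.continuousOn) (ha n)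
  have h2 : ∀ n, lam n ∈ Set.Icc (-((1 / h₀ + 1) * M + 3 * B₀)) ((1 / h₀ + 1) * M + 3 * B₀) := by
    intro n
    rw [Set.mem_Icc, ← abs_le]
    have i1 := h1 n 1 ⟨zero_le_one, by linarith [(Nat.cast_nonneg n : (0:ℝ) ≤ n)]⟩
    have i2 := chain' hh hinc (a n + 1) (a n)
    rw [add_sub_cancel_left, abs_one] at i2
    rw [mul_one] at i1
    have : |lam n| ≤ |L (a n + 1) - L (a n)| + |L (a n + 1) - L (a n) - lam n| := by
      have e : lam n = (L (a n + 1) - L (a n)) - (L (a n + 1) - L (a n) - lam n) := by ring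
      calc |lam n| = |(L (a n + 1) - L (a n)) - (L (a n + 1) - L (a n) - lam n)| := by rw [← e]
        _ ≤ _ := abs_sub _ _
    linarith
  obtain ⟨l, -, φ, hφ, hlim⟩ := tendsto_subseq_of_bounded (Metric.isBounded_Icc _ _) h2
  refine ⟨l, 3 * B₀ + 1, by positivity, fun T => ?_⟩
  have h3 : ∀ᶠ k in atTop, |lam (φ k) - l| < 1 / (T + 1) := by
    have := (Metric.tendsto_nhds.1 hlim) (1 / (T + 1)) (by positivity)
    simpa [Real.dist_eq] using this
  obtain ⟨k, hk1, hk2⟩ := (h3.and (eventually_ge_atTop T)).exists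
  refine ⟨a (φ k), fun x hx => ?_⟩
  have hTk : (T:ℝ) ≤ φ k := by exact_mod_cast hk2.trans (hφ.id_le k)
  have i1 := h1 (φ k) x ⟨hx.1, by linarith [hx.2]⟩
  have i2 : |(lam (φ k) - l) * x| ≤ 1 := by
    rw [abs_mul, abs_of_nonneg hx.1]
    have hT1 : (0:ℝ) < T + 1 := by positivity
    rw [lt_div_iff₀ hT1] at hk1
    have : |lam (φ k) - l| * x ≤ |lam (φ k) - l| * (T + 1) :=
      mul_le_mul_of_nonneg_left (by linarith [hx.2]) (abs_nonneg _)
    linarith
  have e : L (a (φ k) + x) - L (a (φ k)) - l * x =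
      (L (a (φ k) + x) - L (a (φ k)) - lam (φ k) * x) + (lam (φ k) - l) * x := by ring
  rw [e]
  exact (abs_add_le _ _).trans (by linarith)

lemma norm_integral_eI_le {δ : ℝ} (hδ : δ ≠ 0) (s₁ s₂ : ℝ) :
    ‖∫ s in s₁..s₂, eI (s * δ)‖ ≤ 2 / |δ| := by
  have hc : (δ : ℂ) * I ≠ 0 := mul_ne_zero (by exact_mod_cast hδ) I_ne_zero
  have e : ∫ s in s₁..s₂, eI (s * δ) =
      (Complex.exp (((δ : ℂ) * I) * s₂) - Complex.exp (((δ : ℂ) * I) * s₁)) / ((δ : ℂ) * I) := by
    rw [← integral_exp_mul_complex hc]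
    refine intervalIntegral.integral_congr fun s _ => ?_
    unfold eI
    congr 1
    push_cast
    ring
  rw [e, norm_div]
  have h1 : ∀ s : ℝ, ‖Complex.exp (((δ : ℂ) * I) * s)‖ = 1 := by
    intro s
    have : ((δ : ℂ) * I) * s = ((δ * s : ℝ) : ℂ) * I := by push_cast; ring
    rw [this, Complex.norm_exp_ofReal_mul_I]
  have h2 : ‖Complex.exp (((δ : ℂ) * I) * s₂) - Complex.exp (((δ : ℂ) * I) * s₁)‖ ≤ 2 := by
    refine (norm_sub_le _ _).trans ?_
    rw [h1, h1]; norm_num
  have h3 : ‖(δ : ℂ) * I‖ = |δ| := by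
    rw [norm_mul, Complex.norm_I, mul_one, Complex.norm_real, Real.norm_eq_abs]
  rw [h3]
  gcongr

/-- The contradiction for an everywhere positive function. -/
theorem core_pos {L : ℝ → ℝ} (hL : Continuous L) (hinf : Tendsto L (cocompact ℝ) atBot)
    {C h₀ M : ℝ} (hh : 0 < h₀)
    (hinc : ∀ ξ ξ' : ℝ, |ξ - ξ'| ≤ h₀ → |L ξ - L ξ'| ≤ M)
    (hrep : ∀ s ∈ Set.Icc (0:ℝ) (1/2), Rep C (fun ξ => eI (s * L ξ))) : False := by
  obtain ⟨lam, B, hB, hslope⟩ := slope hL hh hinc (hrep (1/2) ⟨by norm_num, le_refl _⟩)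
  set Lt : ℝ → ℝ := fun ξ => L ξ - lam * ξ with hLt
  have hLtc : Continuous Lt := by simp only [hLt]; fun_prop
  set β := min (1/2) (1 / (2 * B)) with hβ
  have hβp : 0 < β := by positivity
  have hβ1 : β ≤ 1/2 := min_le_left _ _
  have hβ2 : β * B ≤ 1/2 := by
    have : β ≤ 1 / (2 * B) := min_le_right _ _
    calc β * B ≤ 1 / (2 * B) * B := by gcongr
      _ = 1/2 := by field_simp
  -- the modulated functions are representable
  have hrep' : ∀ s ∈ Set.Icc (0:ℝ) (1/2), Rep C (fun ξ => eI (s * Lt ξ)) := by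
    intro s hs
    have h1 := (hrep s hs).modulate (s * lam / (2 * Real.pi))
    have e : (fun ξ => eI (s * L ξ) * ek (ξ * (s * lam / (2 * Real.pi)))) =
        (fun ξ => eI (s * Lt ξ)) := by
      ext ξ
      have : ek (ξ * (s * lam / (2 * Real.pi))) = eI (-(s * lam * ξ)) := by
        unfold ek eI
        congr 2
        have := Real.pi_pos.ne'
        rw [Complex.ofReal_inj]
        field_simp
      rw [this, ← eI_add]
      congr 1
      simp only [hLt]; ring
    rwa [e] at h1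
  set m : ℕ → ℝ → ℝ → ℂ := fun n b s => ∫ ξ in b..(b + n), eI (s * Lt ξ) with hm
  have hmc : ∀ n b, Continuous (m n b) := by
    intro n b
    have : Continuous (Function.uncurry fun s ξ : ℝ => eI (s * Lt ξ)) :=
      continuous_eI.comp (by fun_prop)
    exact intervalIntegral.continuous_parametric_intervalIntegral_of_continuous' this b (b + n)
  set S : ℕ → Set ℝ := fun k => {s | ∀ n : ℕ, k ≤ n → ∀ b b' : ℝ,
    ‖m n b s - m n b' s‖ ≤ 1 / 4 * n} with hS
  have hSc : ∀ k, IsClosed (S k) := by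
    intro k
    simp only [hS, Set.ofPred_forall]
    refine isClosed_iInter fun n => isClosed_iInter fun _ => isClosed_iInter fun b =>
      isClosed_iInter fun b' => ?_
    exact isClosed_le ((hmc n b).sub (hmc n b')).norm continuous_const
  have hSu : ∀ s ∈ Set.Icc (β / 2) β, ∃ k, s ∈ S k := by
    intro s hs
    obtain ⟨N, hN⟩ := (hrep' s ⟨by linarith [hs.1], by linarith [hs.2]⟩).mean
      (show (0:ℝ) < 1 / 4 by norm_num)
    exact ⟨N, hN⟩
  obtain ⟨k, s₁, s₂, hs1, hs12, hs2, hsub⟩ := baire_Icc (by linarith) S hSc hSu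
  set n : ℕ := max k 1 with hn
  have hn1 : (1:ℝ) ≤ n := by
    have : 1 ≤ n := le_max_right _ _
    exact_mod_cast this
  obtain ⟨a, ha⟩ := hslope n
  -- the mean over the good window
  have hgood : ∀ s ∈ Set.Icc s₁ s₂, ‖m n a s * eI (-(s * Lt a)) - n‖ ≤ 1 / 2 * n := by
    intro s hs
    have e1 : m n a s * eI (-(s * Lt a)) - n =
        ∫ ξ in a..(a + n), (eI (s * Lt ξ - s * Lt a) - 1) := by
      rw [intervalIntegral.integral_sub]
      · rw [hm, ← intervalIntegral.integral_mul_const]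
        congr 1
        · refine intervalIntegral.integral_congr fun ξ _ => ?_
          rw [← eI_add]
          congr 1
        · simp
      · exact (continuous_eI.comp (by fun_prop)).intervalIntegrable _ _
      · exact continuous_const.intervalIntegrable _ _
    rw [e1]
    have := intervalIntegral.norm_integral_le_of_norm_le_const (a := a) (b := a + n) (C := 1/2)
      (f := fun ξ => eI (s * Lt ξ - s * Lt a) - 1) (by
        intro ξ hξ
        rw [Set.uIoc_of_le (by linarith)] at hξ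
        refine (norm_eI_sub_one_le _).trans ?_
        have h1 := ha (ξ - a) ⟨by linarith [hξ.1], by linarith [hξ.2]⟩
        rw [add_sub_cancel] at h1
        have h2 : s * Lt ξ - s * Lt a = s * (L ξ - L a - lam * (ξ - a)) := by
          simp only [hLt]; ring
        have hs0 : 0 ≤ s := by linarith [hs.1]
        rw [h2, abs_mul, abs_of_nonneg hs0]
        have hsβ : s ≤ β := by linarith [hs.2]
        calc s * |L ξ - L a - lam * (ξ - a)| ≤ β * B := by gcongr
          _ ≤ 1/2 := hβ2)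
    rw [add_sub_cancel_left, abs_of_nonneg (by linarith)] at this
    exact this
  -- the mean over any window
  have hall : ∀ s ∈ Set.Icc s₁ s₂, ∀ b, ‖m n b s * eI (-(s * Lt a)) - n‖ ≤ 3 / 4 * n := by
    intro s hs b
    have h1 := hgood s hs
    have h2 := hsub hs n (le_max_left _ _) b a
    have e : m n b s * eI (-(s * Lt a)) - n = (m n b s - m n a s) * eI (-(s * Lt a)) +
        (m n a s * eI (-(s * Lt a)) - n) := by ring
    rw [e]
    refine (norm_add_le _ _).trans ?_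
    rw [norm_mul, norm_eI, mul_one]
    linarith
  -- a window far away
  set K := 16 / (s₂ - s₁) with hK
  have hs21 : 0 < s₂ - s₁ := sub_pos.2 hs12
  have hKp : 0 < K := by positivity
  obtain ⟨R, hR⟩ : ∃ R : ℝ, ∀ ξ : ℝ, R ≤ |ξ| → L ξ ≤ Lt a - K := by
    have h1 := hinf.eventually (eventually_le_atBot (Lt a - K))
    rw [Filter.Eventually, mem_cocompact] at h1
    obtain ⟨K', hK', hKs⟩ := h1
    obtain ⟨R, hR⟩ := hK'.isBounded.exists_norm_le
    refine ⟨R + 1, fun ξ hξ => ?_⟩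
    have : ξ ∈ K'ᶜ := by
      intro hx
      have := hR ξ hx
      rw [Real.norm_eq_abs] at this
      linarith
    exact hKs this
  obtain ⟨b, hb⟩ : ∃ b : ℝ, ∀ ξ ∈ Set.Icc b (b + n), Lt ξ ≤ Lt a - K := by
    by_cases hl : 0 ≤ lam
    · refine ⟨max R 0, fun ξ hξ => ?_⟩
      have h0 : 0 ≤ ξ := (le_max_right _ _).trans hξ.1
      have h1 : R ≤ |ξ| := by rw [abs_of_nonneg h0]; exact (le_max_left _ _).trans hξ.1
      have h2 := hR ξ h1
      have h3 : 0 ≤ lam * ξ := mul_nonneg hl h0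
      simp only [hLt] at *
      linarith
    · push Not at hl
      refine ⟨-(max R 0) - n, fun ξ hξ => ?_⟩
      have h4 : ξ ≤ -(max R 0) := by linarith [hξ.2]
      have h0 : ξ ≤ 0 := by linarith [le_max_right R 0]
      have h1 : R ≤ |ξ| := by rw [abs_of_nonpos h0]; linarith [le_max_left R 0]
      have h2 := hR ξ h1
      have h3 : 0 ≤ lam * ξ := mul_nonneg_of_nonpos_of_nonpos hl.le h0
      simp only [hLt] at *
      linarith
  -- integrate over s
  have hJ1 : ‖(∫ s in s₁..s₂, m n b s * eI (-(s * Lt a))) - n * (s₂ - s₁)‖ ≤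
      3 / 4 * n * (s₂ - s₁) := by
    have hcont : Continuous (fun s => m n b s * eI (-(s * Lt a))) :=
      (hmc n b).mul (continuous_eI.comp (by fun_prop))
    have e : (∫ s in s₁..s₂, m n b s * eI (-(s * Lt a))) - n * (s₂ - s₁) =
        ∫ s in s₁..s₂, (m n b s * eI (-(s * Lt a)) - n) := by
      rw [intervalIntegral.integral_sub (hcont.intervalIntegrable _ _)
        (continuous_const.intervalIntegrable _ _), intervalIntegral.integral_const]
      rw [Complex.real_smul]
      push_cast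
      ring
    rw [e]
    have := intervalIntegral.norm_integral_le_of_norm_le_const (a := s₁) (b := s₂) (C := 3 / 4 * n)
      (f := fun s => m n b s * eI (-(s * Lt a)) - n) (by
        intro s hs
        rw [Set.uIoc_of_le hs12.le] at hs
        exact hall s ⟨hs.1.le, hs.2⟩ b)
    rwa [abs_of_pos hs21] at this
  have hJ2 : ‖∫ s in s₁..s₂, m n b s * eI (-(s * Lt a))‖ ≤ 1 / 8 * n * (s₂ - s₁) := by
    have e : (∫ s in s₁..s₂, m n b s * eI (-(s * Lt a))) =
        ∫ ξ in b..(b + n), ∫ s in s₁..s₂, eI (s * (Lt ξ - Lt a)) := by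
      rw [← intervalIntegral_intervalIntegral_swap]
      · refine intervalIntegral.integral_congr fun s _ => ?_
        simp only [hm]
        rw [← intervalIntegral.integral_mul_const]
        refine intervalIntegral.integral_congr fun ξ _ => ?_
        rw [← eI_add]
        congr 1
        ring
      · have : Continuous (Function.uncurry fun s ξ : ℝ => eI (s * (Lt ξ - Lt a))) :=
          continuous_eI.comp (by fun_prop)
        exact (this.continuousOn.integrableOn_compact (isCompact_uIcc.prod isCompact_uIcc)).mono_set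
          (Set.prod_mono Set.uIoc_subset_uIcc Set.uIoc_subset_uIcc)
    rw [e]
    have := intervalIntegral.norm_integral_le_of_norm_le_const (a := b) (b := b + n)
      (C := (s₂ - s₁) / 8)
      (f := fun ξ => ∫ s in s₁..s₂, eI (s * (Lt ξ - Lt a))) (by
        intro ξ hξ
        rw [Set.uIoc_of_le (by linarith)] at hξ
        have h1 := hb ξ ⟨hξ.1.le, hξ.2⟩
        have h2 : Lt ξ - Lt a ≤ -K := by linarith
        have h3 : Lt ξ - Lt a ≠ 0 := by linarith
        refine (norm_integral_eI_le h3 _ _).trans ?_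
        rw [abs_of_neg (by linarith)]
        calc 2 / (-(Lt ξ - Lt a)) ≤ 2 / K := by
              apply div_le_div_of_nonneg_left (by norm_num) hKp (by linarith)
          _ = (s₂ - s₁) / 8 := by rw [hK]; field_simp; norm_num)
    rw [add_sub_cancel_left, abs_of_nonneg (by linarith)] at this
    linarith
  have hfin : ‖((n * (s₂ - s₁) : ℝ) : ℂ)‖ ≤ 7 / 8 * n * (s₂ - s₁) := by
    have e : ((n * (s₂ - s₁) : ℝ) : ℂ) = (∫ s in s₁..s₂, m n b s * eI (-(s * Lt a))) -
        ((∫ s in s₁..s₂, m n b s * eI (-(s * Lt a))) - n * (s₂ - s₁)) := by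
      push_cast; ring
    rw [e]
    refine (norm_sub_le _ _).trans ?_
    linarith
  rw [Complex.norm_real, Real.norm_of_nonneg (by positivity)] at hfin
  have : 0 < n * (s₂ - s₁) := by positivity
  nlinarith

end Pool.Agent.J4H97.SG
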