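import Pool.Agent.J4H97.SG.Core
import Pool.Agent.J4H97.SG.Compact

/-!
# No analytic semigroup in `L¹(ℝ)` is bounded on the half-disc
-/

open MeasureTheory Filter Topology Complex
open scoped FourierTransform Convolution ENNReal NNReal ComplexConjugate

namespace Pool.Agent.J4H97.SG

/-- The general form of the core contradiction. -/
theorem core {r : ℝ → ℝ} (hr : Continuous r) (hne : ∃ ξ, 0 < r ξ)
    (hinf : Tendsto r (cocompact ℝ) (𝓝 0)) {C : ℝ}
    (hrep : ∀ s ∈ Set.Icc (0:ℝ) (1/2), ∃ F, Rep C F ∧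
      ∀ ξ, 0 < r ξ → F ξ = eI (s * Real.log (r ξ))) : False := by
  set L : ℝ → ℝ := fun ξ => Real.log (r ξ) with hL
  -- Baire: bounded increments
  set S : ℕ → Set ℝ := fun k => {s | ∀ ξ ξ' : ℝ, 0 < r ξ → 0 < r ξ' → |ξ - ξ'| ≤ 1 / (k + 1) →
    ‖eI (s * (L ξ - L ξ')) - 1‖ ≤ 1 / 2} with hS
  have hSc : ∀ k, IsClosed (S k) := by
    intro k
    simp only [hS, Set.ofPred_forall]
    refine isClosed_iInter fun ξ => isClosed_iInter fun ξ' => isClosed_iInter fun _ =>
      isClosed_iInter fun _ => isClosed_iInter fun _ => ?_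
    refine isClosed_le ?_ continuous_const
    exact ((continuous_eI.comp (by fun_prop)).sub continuous_const).norm
  have hSu : ∀ s ∈ Set.Icc (0:ℝ) (1/2), ∃ k, s ∈ S k := by
    intro s hs
    obtain ⟨F, hF, hFr⟩ := hrep s hs
    obtain ⟨δ, hδ, huc⟩ := hF.uc (show (0:ℝ) < 1 / 2 by norm_num)
    obtain ⟨k, hk⟩ := exists_nat_one_div_lt hδ
    refine ⟨k, fun ξ ξ' h1 h2 h3 => ?_⟩
    have := huc ξ ξ' (h3.trans hk.le)
    rw [hFr ξ h1, hFr ξ' h2, eI_sub, norm_mul, norm_eI, one_mul, ← mul_sub] at this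
    exact this
  obtain ⟨k, s₁, s₂, hs1, hs12, hs2, hsub⟩ := baire_Icc (show (0:ℝ) < 1/2 by norm_num) S hSc hSu
  set h₀ : ℝ := 1 / (k + 1) with hh₀
  have hh : 0 < h₀ := by positivity
  set M : ℝ := Real.pi / (s₂ - s₁) with hM
  have hinc : ∀ ξ ξ' : ℝ, 0 < r ξ → 0 < r ξ' → |ξ - ξ'| ≤ h₀ → |L ξ - L ξ'| ≤ M := by
    intro ξ ξ' h1 h2 h3
    exact osc_bound hs12 (fun s hs => hsub hs ξ ξ' h1 h2 h3)
  -- positivity everywhere
  set U : Set ℝ := {ξ | 0 < r ξ} with hU
  have hUo : IsOpen U := isOpen_lt continuous_const hr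
  have hUc : IsClosed U := by
    rw [← closure_subset_iff_isClosed]
    intro e he
    have hball : Metric.ball e (h₀ / 2) ∈ 𝓝 e := Metric.ball_mem_nhds e (by positivity)
    obtain ⟨ξ', hξ'b, hξ'U⟩ := mem_closure_iff_nhds.1 he _ hball
    have hlow : ∀ ξ ∈ U ∩ Metric.ball e (h₀ / 2), Real.exp (L ξ' - M) ≤ r ξ := by
      intro ξ hξ
      have h1 : |ξ - ξ'| ≤ h₀ := by
        have a1 := hξ.2
        rw [Metric.mem_ball, Real.dist_eq, abs_lt] at a1 hξ'b
        rw [abs_le]; constructor <;> linarith [a1.1, a1.2, hξ'b.1, hξ'b.2]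
      have h2 := hinc ξ ξ' hξ.1 hξ'U h1
      rw [abs_le] at h2
      have h3 : L ξ' - M ≤ L ξ := by linarith [h2.1]
      calc Real.exp (L ξ' - M) ≤ Real.exp (L ξ) := Real.exp_le_exp.2 h3
        _ = r ξ := Real.exp_log hξ.1
    have hcl : e ∈ closure (U ∩ Metric.ball e (h₀ / 2)) := by
      rw [mem_closure_iff_nhds]
      intro t ht
      obtain ⟨x, hx1, hx2⟩ := mem_closure_iff_nhds.1 he (t ∩ Metric.ball e (h₀ / 2))
        (Filter.inter_mem ht hball)
      exact ⟨x, hx1.1, hx2, hx1.2⟩
    have hclosed : IsClosed {ξ | Real.exp (L ξ' - M) ≤ r ξ} := isClosed_le continuous_const hr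
    have : e ∈ {ξ | Real.exp (L ξ' - M) ≤ r ξ} :=
      closure_minimal hlow hclosed hcl
    exact lt_of_lt_of_le (Real.exp_pos _) this
  have hUuniv : U = Set.univ := by
    obtain ⟨ξ, hξ⟩ := hne
    exact IsClopen.eq_univ ⟨hUc, hUo⟩ ⟨ξ, hξ⟩
  have hpos : ∀ ξ, 0 < r ξ := fun ξ => by
    have : ξ ∈ U := by rw [hUuniv]; trivial
    exact this
  have hLc : Continuous L := by
    simp only [hL]
    exact hr.log (fun ξ => (hpos ξ).ne')
  have hLinf : Tendsto L (cocompact ℝ) atBot := by
    refine Real.tendsto_log_nhdsGT_zero.comp ?_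
    rw [tendsto_nhdsWithin_iff]
    exact ⟨hinf, Eventually.of_forall fun ξ => hpos ξ⟩
  refine core_pos (C := C) hLc hLinf hh (fun ξ ξ' h => hinc ξ ξ' (hpos _) (hpos _) h) ?_
  intro s hs
  obtain ⟨F, hF, hFr⟩ := hrep s hs
  have : F = fun ξ => eI (s * L ξ) := by
    ext ξ
    exact hFr ξ (hpos ξ)
  rwa [← this]

/-- Multiplicative holomorphic functions on the half-plane. -/
lemma exp_of_mul {g : ℂ → ℂ} (hd : DifferentiableOn ℂ g {t | 0 < t.re})
    (hm : ∀ s t : ℂ, 0 < s.re → 0 < t.re → g (s + t) = g s * g t) :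
    (∀ t : ℂ, 0 < t.re → g t = 0) ∨ ∃ c : ℂ, ∀ t : ℂ, 0 < t.re → g t = Complex.exp (c * t) := by
  have hHo : IsOpen {t : ℂ | 0 < t.re} := isOpen_lt continuous_const Complex.continuous_re
  by_cases h1 : g 1 = 0
  · left
    have hpow : ∀ n : ℕ, ∀ t : ℂ, 0 < t.re → g ((n + 1 : ℕ) * t) = g t ^ (n + 1) := by
      intro n t ht
      induction n with
      | zero => simp
      | succ n ih =>
        have e : (((n + 1 + 1 : ℕ) : ℂ)) * t = ((n + 1 : ℕ) : ℂ) * t + t := by push_cast; ring
        have hre : 0 < (((n + 1 : ℕ) : ℂ) * t).re := by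
          rw [Complex.mul_re, Complex.natCast_re, Complex.natCast_im, zero_mul, sub_zero]
          positivity
        rw [e, hm _ _ hre ht, ih, ← pow_succ]
    intro t ht
    obtain ⟨n, hn⟩ := exists_nat_gt (1 / t.re)
    have h2 := hpow n t ht
    have h3 : g (((n + 1 : ℕ) : ℂ) * t) = 0 := by
      have e : ((n + 1 : ℕ) : ℂ) * t = 1 + (((n + 1 : ℕ) : ℂ) * t - 1) := by ring
      rw [e, hm 1 _ (by simp) ?_, h1, zero_mul]
      rw [Complex.sub_re, Complex.mul_re, Complex.natCast_re, Complex.natCast_im, zero_mul,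
        sub_zero, Complex.one_re, sub_pos]
      rw [div_lt_iff₀ ht] at hn
      push_cast
      nlinarith
    rw [h3] at h2
    exact pow_eq_zero_iff (by omega) |>.1 h2.symm
  · right
    have hdat : ∀ t : ℂ, 0 < t.re → DifferentiableAt ℂ g t := fun t ht =>
      (hd t ht).differentiableAt (hHo.mem_nhds ht)
    have hone : (0:ℝ) < (1:ℂ).re := by simp
    set c := deriv g 1 / g 1 with hc
    -- the differential equation
    have hode : ∀ t : ℂ, 0 < t.re → deriv g t = c * g t := by
      intro t ht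
      have hst : 0 < (t + 1).re := by rw [Complex.add_re]; simp; linarith
      have e1 : deriv g (t + 1) = deriv g t * g 1 := by
        have h2 : (fun z => g (z + 1)) =ᶠ[𝓝 t] fun z => g z * g 1 := by
          filter_upwards [hHo.mem_nhds ht] with z hz
          exact hm z 1 hz hone
        have h3 := h2.deriv_eq
        rw [deriv_comp_add_const, deriv_mul_const (hdat t ht)] at h3
        exact h3
      have e2 : deriv g (t + 1) = g t * deriv g 1 := by
        have h2 : (fun z => g (t + z)) =ᶠ[𝓝 1] fun z => g t * g z := by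
          filter_upwards [hHo.mem_nhds hone] with z hz
          exact hm t z ht hz
        have h3 := h2.deriv_eq
        rw [deriv_comp_const_add, deriv_const_mul _ (hdat 1 hone)] at h3
        exact h3
      rw [e1] at e2
      rw [hc]
      field_simp
      linear_combination e2
    have hderiv : ∀ t : ℂ, 0 < t.re → HasDerivAt (fun z => g z * Complex.exp (-(c * z))) 0 t := by
      intro t ht
      have h2 : HasDerivAt g (c * g t) t := by
        rw [← hode t ht]; exact (hdat t ht).hasDerivAt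
      have h3 : HasDerivAt (fun z : ℂ => Complex.exp (-(c * z)))
          (Complex.exp (-(c * t)) * (-(c * 1))) t :=
        (((hasDerivAt_id t).const_mul c).neg).cexp
      have h4 := h2.mul h3
      have h5 : c * g t * Complex.exp (-(c * t)) + g t * (Complex.exp (-(c * t)) * (-(c * 1))) =
          0 := by ring
      rw [h5] at h4
      exact h4
    have hconst : ∀ t : ℂ, 0 < t.re → g t * Complex.exp (-(c * t)) =
        g 1 * Complex.exp (-(c * 1)) := by
      have hconv : Convex ℝ {t : ℂ | 0 < t.re} := convex_halfSpace_re_gt 0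
      intro t ht
      refine hHo.is_const_of_deriv_eq_zero hconv.isPreconnected
        (f := fun z => g z * Complex.exp (-(c * z))) ?_ ?_ ht hone
      · intro z hz
        exact (hderiv z hz).differentiableAt.differentiableWithinAt
      · intro z hz
        exact (hderiv z hz).deriv
    set κ := g 1 * Complex.exp (-(c * 1)) with hκ
    have hg : ∀ t : ℂ, 0 < t.re → g t = κ * Complex.exp (c * t) := by
      intro t ht
      rw [← hconst t ht, mul_assoc, ← Complex.exp_add, neg_add_cancel, Complex.exp_zero, mul_one]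
    have hκ1 : κ = 1 := by
      have h2 := hm 1 1 hone hone
      have h2re : (0:ℝ) < (1 + 1 : ℂ).re := by simp
      rw [hg _ h2re, hg 1 hone, mul_add, Complex.exp_add] at h2
      have hκ0 : κ ≠ 0 := mul_ne_zero h1 (Complex.exp_ne_zero _)
      have he : Complex.exp (c * 1) ≠ 0 := Complex.exp_ne_zero _
      have h3 : κ * (Complex.exp (c * 1) * Complex.exp (c * 1)) * κ =
          κ * (Complex.exp (c * 1) * Complex.exp (c * 1)) := by
        linear_combination (-1) * h2
      exact mul_left_cancel₀ (mul_ne_zero hκ0 (mul_ne_zero he he)) (by rw [h3]; ring)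
    refine ⟨c, fun t ht => ?_⟩
    rw [hg t ht, hκ1, one_mul]

/-- The Fourier transform at a point as a continuous functional. -/
noncomputable def ftCLM (ξ : ℝ) : Lp ℂ 1 (volume : Measure ℝ) →L[ℂ] ℂ :=
  LinearMap.mkContinuous
    { toFun := fun f => ∫ x, ek (ξ * x) * (f : ℝ → ℂ) x
      map_add' := by
        intro f g
        have hi : ∀ f : Lp ℂ 1 (volume : Measure ℝ),
            Integrable (fun x => ek (ξ * x) * (f : ℝ → ℂ) x) := by
          intro f
          refine (L1.integrable_coeFn f).bdd_mul (c := 1) ?_ ?_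
          · exact (continuous_ek.comp (by fun_prop)).aestronglyMeasurable
          · exact Eventually.of_forall fun x => by simp
        rw [← integral_add (hi f) (hi g)]
        refine integral_congr_ae ?_
        filter_upwards [Lp.coeFn_add f g] with x hx
        rw [hx, Pi.add_apply, mul_add]
      map_smul' := by
        intro c f
        simp only [RingHom.id_apply, smul_eq_mul]
        rw [← integral_const_mul]
        refine integral_congr_ae ?_
        filter_upwards [Lp.coeFn_smul c f] with x hx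
        rw [hx, Pi.smul_apply, smul_eq_mul]
        ring } 1
    (by
      intro f
      rw [one_mul, L1.norm_eq_integral_norm]
      refine norm_integral_le_of_norm_le (L1.integrable_coeFn f).norm ?_
      refine Eventually.of_forall fun x => ?_
      rw [norm_mul, norm_ek, one_mul])

lemma ftCLM_apply (ξ : ℝ) (f : Lp ℂ 1 (volume : Measure ℝ)) :
    ftCLM ξ f = 𝓕 (f : ℝ → ℂ) ξ := by
  rw [Real.fourier_real_eq_integral_exp_smul]
  change ∫ x, ek (ξ * x) * (f : ℝ → ℂ) x = _
  congr 1
  ext x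
  rw [smul_eq_mul]
  congr 1
  unfold ek
  congr 2
  push_cast
  ring

/-- Injectivity of the Fourier transform on `L¹`. -/
lemma eq_zero_of_fourier_eq_zero (f : Lp ℂ 1 (volume : Measure ℝ))
    (hf : ∀ ξ, 𝓕 (f : ℝ → ℂ) ξ = 0) : f = 0 := by
  rw [Lp.eq_zero_iff_ae_eq_zero]
  have hfi : Integrable (f : ℝ → ℂ) := L1.integrable_coeFn f
  refine ae_eq_zero_of_integral_contDiff_smul_eq_zero hfi.locallyIntegrable ?_
  intro g g_smooth g_cpt
  have hg₁ : HasCompactSupport (Complex.ofRealCLM ∘ g) := g_cpt.comp_left rfl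
  have hg₂ : ContDiff ℝ (⊤ : ℕ∞) (Complex.ofRealCLM ∘ g) := by fun_prop
  set G := hg₁.toSchwartzMap hg₂ with hG
  set φ := FourierTransformInv.fourierInv G with hφ
  have hGφ : FourierTransform.fourier φ = G := FourierTransform.fourier_fourierInv_eq G
  have h1 : ∀ x, (g x : ℂ) = 𝓕 (φ : ℝ → ℂ) x := by
    intro x
    have h2 : (FourierTransform.fourier φ : SchwartzMap ℝ ℂ) x = (g x : ℂ) := by
      rw [hGφ]; rfl
    rw [← h2]
    rfl
  have h3 := VectorFourier.integral_fourierIntegral_smul_eq_flip (μ := (volume : Measure ℝ))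
    (ν := (volume : Measure ℝ)) (L := innerₗ ℝ) (f := (φ : ℝ → ℂ)) (g := (f : ℝ → ℂ))
    Real.continuous_fourierChar continuous_inner φ.integrable hfi
  have h4 : ∫ x, g x • (f : ℝ → ℂ) x =
      ∫ x, (VectorFourier.fourierIntegral Real.fourierChar volume (innerₗ ℝ) (φ : ℝ → ℂ) x) •
        (f : ℝ → ℂ) x := by
    congr 1
    ext x
    rw [← Complex.coe_smul, h1 x]
    rfl
  rw [h4, h3]
  have h5 : ∀ x, VectorFourier.fourierIntegral Real.fourierChar volume (innerₗ ℝ).flip
      (f : ℝ → ℂ) x = 0 := by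
    intro x
    rw [flip_innerₗ]
    exact hf x
  have h6 : (fun x => φ x • VectorFourier.fourierIntegral Real.fourierChar volume (innerₗ ℝ).flip
      (f : ℝ → ℂ) x) = fun _ => 0 := by
    ext x
    rw [h5, smul_zero]
  rw [h6, integral_zero]

/-- **Main theorem.** -/
theorem main (a : ℂ → Lp ℂ 1 (volume : Measure ℝ))
    (hd : DifferentiableOn ℂ a {t | 0 < t.re})
    (hm : ∀ s t : ℂ, 0 < s.re → 0 < t.re →
      (a (s + t) : ℝ → ℂ) =ᵐ[volume] ((a s : ℝ → ℂ) ⋆[ContinuousLinearMap.mul ℂ ℂ, volume]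
        (a t : ℝ → ℂ)))
    (hne : ∃ t : ℂ, 0 < t.re ∧ a t ≠ 0) (C₀ : ℝ)
    (hb : ∀ t : ℂ, 0 < t.re → ‖t‖ ≤ 1 → ‖a t‖ ≤ C₀) : False := by
  set C := max C₀ 1 with hC
  have hCp : 0 < C := lt_of_lt_of_le one_pos (le_max_right _ _)
  have hb' : ∀ t : ℂ, 0 < t.re → ‖t‖ ≤ 1 → ‖a t‖ ≤ C := fun t h1 h2 =>
    (hb t h1 h2).trans (le_max_left _ _)
  set g : ℝ → ℂ → ℂ := fun ξ t => 𝓕 (a t : ℝ → ℂ) ξ with hg
  have hgd : ∀ ξ, DifferentiableOn ℂ (g ξ) {t | 0 < t.re} := by
    intro ξ
    have : g ξ = fun t => ftCLM ξ (a t) := by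
      ext t; rw [ftCLM_apply]
    rw [this]
    exact (ftCLM ξ).differentiable.comp_differentiableOn hd
  have hgm : ∀ ξ, ∀ s t : ℂ, 0 < s.re → 0 < t.re → g ξ (s + t) = g ξ s * g ξ t := by
    intro ξ s t hs ht
    simp only [hg]
    rw [← Real.fourier_mul_convolution_eq (L1.integrable_coeFn (a s)) (L1.integrable_coeFn (a t)),
      Real.fourier_real_eq_integral_exp_smul, Real.fourier_real_eq_integral_exp_smul]
    refine integral_congr_ae ?_
    filter_upwards [hm s t hs ht] with x hx
    rw [hx]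
  have hdich := fun ξ => exp_of_mul (hgd ξ) (hgm ξ)
  have hone : (0:ℝ) < (1:ℂ).re := by simp
  -- the function r
  have hrepg : ∀ t : ℂ, 0 < t.re → ‖t‖ ≤ 1 → Rep C (fun ξ => g ξ t) := fun t h1 h2 =>
    rep_of_L1 (a t) hCp (hb' t h1 h2)
  set r : ℝ → ℝ := fun ξ => ‖g ξ 1‖ ^ 2 with hr
  have hrc : Continuous r := ((hrepg 1 hone (by simp)).continuous.norm).pow 2
  have hrinf : Tendsto r (cocompact ℝ) (𝓝 0) := by
    have h1 : Tendsto (fun ξ => g ξ 1) (cocompact ℝ) (𝓝 0) := Real.zero_at_infty_fourier _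
    have h2 := (h1.norm).pow 2
    simpa using h2
  have hrne : ∃ ξ, 0 < r ξ := by
    by_contra hcon
    push Not at hcon
    obtain ⟨t, ht, hat⟩ := hne
    apply hat
    refine eq_zero_of_fourier_eq_zero _ fun ξ => ?_
    rcases hdich ξ with h | ⟨c, h⟩
    · exact h t ht
    · exfalso
      have h1 := hcon ξ
      simp only [hr] at h1
      rw [h 1 hone] at h1
      have : 0 < ‖Complex.exp (c * 1)‖ ^ 2 := by
        have := norm_pos_iff.2 (Complex.exp_ne_zero (c * 1))
        positivity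
      linarith
  refine core (C := C * C) hrc hrne hrinf ?_
  intro s hs
  -- approximating times
  set tn : ℕ → ℂ := fun n => ((1 / ((n:ℝ) + 2) : ℝ) : ℂ) + (s : ℂ) * I with htn
  have htre : ∀ n, (tn n).re = 1 / ((n:ℝ) + 2) := by
    intro n
    simp only [htn, Complex.add_re, Complex.ofReal_re, Complex.mul_re, Complex.I_re,
      Complex.I_im, Complex.ofReal_im]
    ring
  have htpos : ∀ n, 0 < (tn n).re := by intro n; rw [htre]; positivity
  have htnorm : ∀ n, ‖tn n‖ ≤ 1 := by
    intro n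
    simp only [htn]
    refine (norm_add_le _ _).trans ?_
    rw [Complex.norm_real, norm_mul, Complex.norm_I, mul_one, Complex.norm_real,
      Real.norm_of_nonneg (by positivity), Real.norm_of_nonneg hs.1]
    have : 1 / ((n:ℝ) + 2) ≤ 1 / 2 := by
      apply one_div_le_one_div_of_le (by norm_num)
      linarith [(Nat.cast_nonneg n : (0:ℝ) ≤ n)]
    linarith [hs.2]
  have hcpos : ∀ n, 0 < (conj (tn n)).re := by intro n; rw [Complex.conj_re]; exact htpos n
  have hcnorm : ∀ n, ‖conj (tn n)‖ ≤ 1 := by intro n; rw [RCLike.norm_conj]; exact htnorm n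
  set Fn : ℕ → ℝ → ℂ := fun n ξ => g ξ (tn n) * conj (g ξ (conj (tn n))) with hFn
  have hFnrep : ∀ n, Rep (C * C) (Fn n) := fun n =>
    (hrepg _ (htpos n) (htnorm n)).mul (hrepg _ (hcpos n) (hcnorm n)).conj
  set F : ℝ → ℂ := fun ξ => if 0 < r ξ then eI (s * Real.log (r ξ)) else 0 with hF
  have hlim : ∀ ξ, Tendsto (fun n => Fn n ξ) atTop (𝓝 (F ξ)) := by
    intro ξ
    rcases hdich ξ with h | ⟨c, h⟩
    · have hr' : ¬ 0 < r ξ := by simp [hr, h 1 hone]
      have e : (fun n => Fn n ξ) = fun _ => 0 := by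
        ext n
        simp only [hFn, h _ (htpos n), zero_mul]
      rw [e]
      simp only [hF, hr', if_false]
      exact tendsto_const_nhds
    · have hrv : r ξ = Real.exp (2 * c.re) := by
        simp only [hr]
        rw [h 1 hone, mul_one, Complex.norm_exp, ← Real.exp_nat_mul]
        norm_num
      have hr' : 0 < r ξ := by rw [hrv]; exact Real.exp_pos _
      have hlog : Real.log (r ξ) = 2 * c.re := by rw [hrv, Real.log_exp]
      have e : ∀ n, Fn n ξ = Complex.exp ((2 * c.re : ℝ) * tn n) := by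
        intro n
        simp only [hFn]
        rw [h _ (htpos n), h _ (hcpos n), ← Complex.exp_conj, ← Complex.exp_add]
        congr 1
        rw [map_mul, Complex.conj_conj, ← add_mul, Complex.add_conj]
      simp only [e]
      simp only [hF, hr', if_true, hlog]
      have h1 : Tendsto tn atTop (𝓝 ((0:ℝ) + (s:ℂ) * I)) := by
        simp only [htn]
        refine Tendsto.add ?_ tendsto_const_nhds
        have h2 : Tendsto (fun n : ℕ => 1 / ((n:ℝ) + 2)) atTop (𝓝 0) := by
          have := tendsto_one_div_add_atTop_nhds_zero_nat (𝕜 := ℝ)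
          have h3 := (tendsto_add_atTop_iff_nat 1).2 this
          refine h3.congr fun n => ?_
          push_cast
          ring
        exact (Complex.continuous_ofReal.tendsto 0).comp h2
      have h2 : Tendsto (fun n => Complex.exp ((2 * c.re : ℝ) * tn n)) atTop
          (𝓝 (Complex.exp ((2 * c.re : ℝ) * ((0:ℝ) + (s:ℂ) * I)))) :=
        (Complex.continuous_exp.tendsto _).comp (h1.const_mul _)
      convert h2 using 2
      unfold eI
      congr 1
      push_cast
      ring
  obtain ⟨G, hG, hGF⟩ := rep_limit Fn hFnrep F hlim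
  refine ⟨G, hG, ?_⟩
  have hUo : IsOpen {ξ | 0 < r ξ} := isOpen_lt continuous_const hrc
  have hcont : ContinuousOn (fun ξ => eI (s * Real.log (r ξ))) {ξ | 0 < r ξ} := by
    refine continuous_eI.comp_continuousOn (ContinuousOn.mul continuousOn_const ?_)
    exact hrc.continuousOn.log (fun ξ hξ => (ne_of_gt hξ))
  have hae : G =ᵐ[volume.restrict {ξ | 0 < r ξ}] (fun ξ => eI (s * Real.log (r ξ))) := by
    have h1 : ∀ᵐ ξ ∂(volume.restrict {ξ | 0 < r ξ}), G ξ = F ξ := ae_restrict_of_ae hGF
    filter_upwards [h1, ae_restrict_mem hUo.measurableSet] with ξ h2 h3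
    rw [h2]
    have h3' : 0 < r ξ := h3
    simp only [hF, h3', if_true]
  have := Measure.eqOn_open_of_ae_eq hae hUo hG.continuous.continuousOn hcont
  exact fun ξ hξ => this hξ

end Pool.Agent.J4H97.SG
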