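import Mathlib

/-!
# Fourier-Stieltjes representations

`Rep C F` says that `F : ℝ → ℂ` is the Fourier-Stieltjes transform of a complex measure of total
variation at most `C`, encoded by a probability measure `P` on `ℝ × ℂ` (position, weight).
-/

open MeasureTheory Filter Topology Complex
open scoped FourierTransform Convolution ENNReal NNReal

namespace Pool.Agent.J4H97.SG

/-- The kernel `exp(-2 π i y)`. -/
noncomputable def ek (y : ℝ) : ℂ := Complex.exp ((-2 * Real.pi * y : ℝ) * I)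

lemma ek_zero : ek 0 = 1 := by simp [ek]

lemma ek_add (x y : ℝ) : ek (x + y) = ek x * ek y := by
  unfold ek
  rw [← Complex.exp_add]
  congr 1
  push_cast
  ring

lemma ek_neg (x : ℝ) : ek (-x) = (starRingEnd ℂ) (ek x) := by
  unfold ek
  rw [← Complex.exp_conj, map_mul, Complex.conj_I, Complex.conj_ofReal]
  congr 1
  push_cast
  ring

@[simp] lemma norm_ek (x : ℝ) : ‖ek x‖ = 1 := by
  unfold ek
  exact Complex.norm_exp_ofReal_mul_I _

lemma ek_ne_zero (x : ℝ) : ek x ≠ 0 := by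
  unfold ek; exact Complex.exp_ne_zero _

lemma continuous_ek : Continuous ek := by
  unfold ek
  fun_prop

lemma measurable_ek : Measurable ek := continuous_ek.measurable

lemma ek_sub (x y : ℝ) : ek x - ek y = ek y * (ek (x - y) - 1) := by
  rw [mul_sub, ← ek_add, mul_one]
  congr 2
  ring

/-- `F` is the Fourier-Stieltjes transform of a complex measure of total variation `≤ C`. -/
def Rep (C : ℝ) (F : ℝ → ℂ) : Prop :=
  ∃ P : Measure (ℝ × ℂ), IsProbabilityMeasure P ∧ (∀ᵐ p ∂P, ‖p.2‖ ≤ C) ∧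
    ∀ ξ, F ξ = ∫ p, p.2 * ek (ξ * p.1) ∂P

lemma meas_kernel (ξ : ℝ) : Measurable (fun p : ℝ × ℂ => p.2 * ek (ξ * p.1)) :=
  measurable_snd.mul (measurable_ek.comp (measurable_const.mul measurable_fst))

lemma integrable_kernel {P : Measure (ℝ × ℂ)} [IsFiniteMeasure P] {C : ℝ}
    (h : ∀ᵐ p ∂P, ‖p.2‖ ≤ C) (ξ : ℝ) : Integrable (fun p : ℝ × ℂ => p.2 * ek (ξ * p.1)) P := by
  refine Integrable.of_bound (meas_kernel ξ).aestronglyMeasurable C ?_
  filter_upwards [h] with p hp
  simpa using hp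

lemma Rep.norm_le {C : ℝ} {F : ℝ → ℂ} (h : Rep C F) (ξ : ℝ) : ‖F ξ‖ ≤ C := by
  obtain ⟨P, hP, hb, hF⟩ := h
  rw [hF]
  have := norm_integral_le_of_norm_le_const (μ := P) (f := fun p : ℝ × ℂ => p.2 * ek (ξ * p.1))
    (C := C) (by filter_upwards [hb] with p hp; simpa using hp)
  simpa using this

lemma Rep.nonneg {C : ℝ} {F : ℝ → ℂ} (h : Rep C F) : 0 ≤ C :=
  (norm_nonneg _).trans (h.norm_le 0)

/-- The modulus of continuity. -/
lemma osc_tendsto {P : Measure (ℝ × ℂ)} [IsFiniteMeasure P] :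
    Tendsto (fun h : ℝ => ∫ p, ‖ek (h * p.1) - 1‖ ∂P) (𝓝 0) (𝓝 0) := by
  have h0 : (∫ p : ℝ × ℂ, ‖ek (0 * p.1) - 1‖ ∂P) = 0 := by simp [ek_zero]
  have hc : Continuous (fun h : ℝ => ∫ p : ℝ × ℂ, ‖ek (h * p.1) - 1‖ ∂P) := by
    refine continuous_of_dominated (bound := fun _ => 2) ?_ ?_ (integrable_const _) ?_
    · intro h
      have : Measurable (fun p : ℝ × ℂ => ‖ek (h * p.1) - 1‖) :=
        ((measurable_ek.comp (measurable_const.mul measurable_fst)).sub measurable_const).norm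
      exact this.aestronglyMeasurable
    · intro h
      refine Eventually.of_forall fun p => ?_
      rw [norm_norm]
      refine (norm_sub_le _ _).trans ?_
      rw [norm_ek, norm_one]; norm_num
    · refine Eventually.of_forall fun p => ?_
      exact ((continuous_ek.comp (continuous_id.mul continuous_const)).sub continuous_const).norm
  have := hc.tendsto 0
  rwa [h0] at this

lemma norm_diff_le {P : Measure (ℝ × ℂ)} [IsFiniteMeasure P] {C : ℝ} 
    (h : ∀ᵐ p ∂P, ‖p.2‖ ≤ C) (ξ ξ' : ℝ) :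
    ‖(∫ p, p.2 * ek (ξ * p.1) ∂P) - ∫ p, p.2 * ek (ξ' * p.1) ∂P‖
      ≤ C * ∫ p, ‖ek ((ξ - ξ') * p.1) - 1‖ ∂P := by
  rw [← integral_sub (integrable_kernel h ξ) (integrable_kernel h ξ'), ← integral_const_mul]
  refine norm_integral_le_of_norm_le ?_ ?_
  · have hm : Measurable (fun p : ℝ × ℂ => ‖ek ((ξ - ξ') * p.1) - 1‖) :=
      ((measurable_ek.comp (measurable_const.mul measurable_fst)).sub measurable_const).norm
    refine (Integrable.of_bound hm.aestronglyMeasurable 2 ?_).const_mul C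
    refine Eventually.of_forall fun p => ?_
    rw [norm_norm]
    refine (norm_sub_le _ _).trans ?_
    rw [norm_ek, norm_one]; norm_num
  · filter_upwards [h] with p hp
    rw [← mul_sub, ek_sub, norm_mul, norm_mul, norm_ek, one_mul]
    have : ξ * p.1 - ξ' * p.1 = (ξ - ξ') * p.1 := by ring
    rw [this]
    exact mul_le_mul_of_nonneg_right hp (norm_nonneg _)

lemma unif_cont_aux {P : Measure (ℝ × ℂ)} [IsFiniteMeasure P] {C : ℝ}
    (h : ∀ᵐ p ∂P, ‖p.2‖ ≤ C) {ε : ℝ} (hε : 0 < ε) :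
    ∃ δ > 0, ∀ ξ ξ' : ℝ, |ξ - ξ'| ≤ δ →
      ‖(∫ p, p.2 * ek (ξ * p.1) ∂P) - ∫ p, p.2 * ek (ξ' * p.1) ∂P‖ ≤ ε := by
  have h1 : Tendsto (fun h : ℝ => C * ∫ p, ‖ek (h * p.1) - 1‖ ∂P) (𝓝 0) (𝓝 0) := by
    simpa using (osc_tendsto (P := P)).const_mul C
  have h2 := (h1.eventually (gt_mem_nhds hε))
  rw [Metric.eventually_nhds_iff] at h2
  obtain ⟨δ, hδ, h3⟩ := h2
  refine ⟨δ / 2, by positivity, fun ξ ξ' hx => (norm_diff_le h ξ ξ').trans ?_⟩
  refine (h3 ?_).le
  rw [Real.dist_eq, sub_zero]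
  linarith

lemma Rep.uc {C : ℝ} {F : ℝ → ℂ} (h : Rep C F) {ε : ℝ} (hε : 0 < ε) :
    ∃ δ > 0, ∀ ξ ξ' : ℝ, |ξ - ξ'| ≤ δ → ‖F ξ - F ξ'‖ ≤ ε := by
  obtain ⟨P, hP, hb, hF⟩ := h
  simp only [hF]
  exact unif_cont_aux hb hε

lemma Rep.continuous {C : ℝ} {F : ℝ → ℂ} (h : Rep C F) : Continuous F := by
  rw [Metric.continuous_iff]
  intro ξ ε hε
  obtain ⟨δ, hδ, h1⟩ := h.uc (half_pos hε)
  refine ⟨δ, hδ, fun ξ' hx => ?_⟩
  rw [dist_eq_norm]
  refine (h1 _ _ ?_).trans_lt (by linarith)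
  rw [← Real.dist_eq]
  exact hx.le

lemma Rep.mul {C C' : ℝ} {F G : ℝ → ℂ} (hF : Rep C F) (hG : Rep C' G) :
    Rep (C * C') (fun ξ => F ξ * G ξ) := by
  have hC := hF.nonneg
  obtain ⟨P, hP, hb, hF⟩ := hF
  obtain ⟨Q, hQ, hc, hG⟩ := hG
  have hm : Measurable (fun q : (ℝ × ℂ) × (ℝ × ℂ) => ((q.1.1 + q.2.1, q.1.2 * q.2.2) : ℝ × ℂ)) := by
    fun_prop
  refine ⟨(P.prod Q).map (fun q => (q.1.1 + q.2.1, q.1.2 * q.2.2)), ?_, ?_, ?_⟩
  · exact Measure.isProbabilityMeasure_map hm.aemeasurable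
  · rw [ae_map_iff hm.aemeasurable (measurableSet_le (by fun_prop) (by fun_prop))]
    have h1 : ∀ᵐ q ∂(P.prod Q), ‖q.1.2‖ ≤ C := Measure.quasiMeasurePreserving_fst.ae hb
    have h2 : ∀ᵐ q ∂(P.prod Q), ‖q.2.2‖ ≤ C' := Measure.quasiMeasurePreserving_snd.ae hc
    filter_upwards [h1, h2] with q a b
    rw [norm_mul]
    exact mul_le_mul a b (norm_nonneg _) hC
  · intro ξ
    rw [integral_map hm.aemeasurable (meas_kernel ξ).aestronglyMeasurable]
    simp only []
    rw [hF, hG, ← integral_prod_mul]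
    congr 1
    ext q
    simp only [mul_add, ek_add]
    ring

lemma Rep.conj {C : ℝ} {F : ℝ → ℂ} (hF : Rep C F) :
    Rep C (fun ξ => (starRingEnd ℂ) (F ξ)) := by
  obtain ⟨P, hP, hb, hF⟩ := hF
  have hm : Measurable (fun q : ℝ × ℂ => ((-q.1, (starRingEnd ℂ) q.2) : ℝ × ℂ)) := by
    refine (measurable_fst.neg).prodMk ?_
    exact (Complex.continuous_conj.measurable).comp measurable_snd
  refine ⟨P.map (fun q => (-q.1, (starRingEnd ℂ) q.2)), ?_, ?_, ?_⟩
  · exact Measure.isProbabilityMeasure_map hm.aemeasurable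
  · rw [ae_map_iff hm.aemeasurable (measurableSet_le (by fun_prop) (by fun_prop))]
    filter_upwards [hb] with q a
    simpa using a
  · intro ξ
    rw [integral_map hm.aemeasurable (meas_kernel ξ).aestronglyMeasurable]
    simp only []
    rw [hF, ← integral_conj]
    congr 1
    ext q
    simp only [map_mul, mul_neg, ek_neg]

lemma Rep.modulate {C : ℝ} {F : ℝ → ℂ} (hF : Rep C F) (c : ℝ) :
    Rep C (fun ξ => F ξ * ek (ξ * c)) := by
  obtain ⟨P, hP, hb, hF⟩ := hF
  have hm : Measurable (fun q : ℝ × ℂ => ((q.1 + c, q.2) : ℝ × ℂ)) := by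
    fun_prop
  refine ⟨P.map (fun q => (q.1 + c, q.2)), ?_, ?_, ?_⟩
  · exact Measure.isProbabilityMeasure_map hm.aemeasurable
  · rw [ae_map_iff hm.aemeasurable (measurableSet_le (by fun_prop) (by fun_prop))]
    exact hb
  · intro ξ
    rw [integral_map hm.aemeasurable (meas_kernel ξ).aestronglyMeasurable]
    simp only []
    rw [hF, ← integral_mul_const]
    congr 1
    ext q
    simp only [mul_add, ek_add]
    ring

/-- The Fourier transform of an `L¹` function. -/
lemma rep_of_L1 (f : Lp ℂ 1 (volume : Measure ℝ)) {C : ℝ} (hC : 0 < C) (hf : ‖f‖ ≤ C) :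
    Rep C (𝓕 (f : ℝ → ℂ)) := by
  have hfi : Integrable (f : ℝ → ℂ) := L1.integrable_coeFn f
  have hfm : Measurable (f : ℝ → ℂ) := (Lp.stronglyMeasurable f).measurable
  set d : ℝ → ℝ≥0 := fun x => ‖(f : ℝ → ℂ) x‖₊ / C.toNNReal with hd
  have hdm : Measurable d := hfm.nnnorm.div_const _
  set ν : Measure ℝ := volume.withDensity (fun x => (d x : ℝ≥0∞)) with hν
  have hνu : ν Set.univ = ENNReal.ofReal (‖f‖ / C) := by
    rw [hν, withDensity_apply _ MeasurableSet.univ, Measure.restrict_univ, L1.norm_eq_integral_norm,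
      ← integral_div, ofReal_integral_eq_lintegral_ofReal (hfi.norm.div_const C)
        (Eventually.of_forall fun x => by positivity)]
    refine lintegral_congr fun x => ?_
    rw [ENNReal.ofReal, ENNReal.coe_inj]
    ext
    rw [Real.coe_toNNReal _ (by positivity), hd]
    simp [Real.coe_toNNReal C hC.le]
  have hνle : ν Set.univ ≤ 1 := by
    rw [hνu]
    have := ENNReal.ofReal_le_ofReal (show ‖f‖ / C ≤ 1 by rw [div_le_one hC]; exact hf)
    rwa [ENNReal.ofReal_one] at this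
  have : IsFiniteMeasure ν := ⟨hνle.trans_lt ENNReal.one_lt_top⟩
  set z : ℝ → ℂ := fun x => (C / ‖(f : ℝ → ℂ) x‖ : ℝ) * (f : ℝ → ℂ) x with hz
  have hzm : Measurable z := by
    refine Measurable.mul ?_ hfm
    exact Complex.measurable_ofReal.comp (measurable_const.div hfm.norm)
  have hzn : ∀ x, ‖z x‖ ≤ C := by
    intro x
    rw [hz]
    simp only [norm_mul, Complex.norm_real, Real.norm_eq_abs, abs_div, abs_norm, abs_of_pos hC]
    by_cases h : ‖(f : ℝ → ℂ) x‖ = 0
    · simp [h, hC.le]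
    · rw [div_mul_cancel₀ _ h]
  have hm : Measurable (fun x => (x, z x)) := measurable_id.prodMk hzm
  refine ⟨ν.map (fun x => (x, z x)) + (1 - ν Set.univ) • Measure.dirac ((0, 0) : ℝ × ℂ), ?_, ?_, ?_⟩
  · constructor
    rw [Measure.add_apply, Measure.smul_apply, Measure.map_apply hm MeasurableSet.univ]
    simp only [Set.preimage_univ, measure_univ, smul_eq_mul, mul_one]
    exact add_tsub_cancel_of_le hνle
  · rw [ae_add_measure_iff]
    constructor
    · rw [ae_map_iff hm.aemeasurable (measurableSet_le (by fun_prop) (by fun_prop))]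
      exact Eventually.of_forall hzn
    · refine Measure.ae_smul_measure ?_ _
      rw [ae_dirac_iff (measurableSet_le (by fun_prop) (by fun_prop))]
      simp [hC.le]
  · intro ξ
    have hbnd : ∀ᵐ p ∂(ν.map (fun x => (x, z x))), ‖p.2‖ ≤ C := by
      rw [ae_map_iff hm.aemeasurable (measurableSet_le (by fun_prop) (by fun_prop))]
      exact Eventually.of_forall hzn
    have : IsFiniteMeasure (ν.map (fun x => (x, z x))) := by infer_instance
    rw [integral_add_measure (integrable_kernel hbnd ξ)]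
    · rw [integral_smul_measure, integral_dirac]
      simp only [zero_mul, smul_zero, add_zero]
      rw [integral_map hm.aemeasurable (meas_kernel ξ).aestronglyMeasurable, hν,
        integral_withDensity_eq_integral_smul hdm, Real.fourier_real_eq_integral_exp_smul]
      congr 1
      ext x
      simp only [hd, hz]
      have e1 : ek (ξ * x) = Complex.exp (↑(-2 * Real.pi * x * ξ) * I) := by
        unfold ek
        congr 2
        push_cast
        ring
      rw [← e1]
      rw [NNReal.smul_def, Complex.real_smul, smul_eq_mul]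
      by_cases h : ‖(f : ℝ → ℂ) x‖ = 0
      · rw [norm_eq_zero] at h
        simp [h]
      · have h' : ((‖(f : ℝ → ℂ) x‖ : ℝ) : ℂ) ≠ 0 := by exact_mod_cast h
        have hC' : (C : ℂ) ≠ 0 := by exact_mod_cast hC.ne'
        rw [NNReal.coe_div, Real.coe_toNNReal C hC.le]
        push_cast
        field_simp
    · refine Integrable.smul_measure ?_ ?_
      · exact integrable_dirac (by simp)
      · exact ne_top_of_le_ne_top ENNReal.one_ne_top tsub_le_self

end Pool.Agent.J4H97.SG
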