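import Pool.Agent.J4H97.SG.Rep

/-!
# Mean values and almost periods of Fourier-Stieltjes transforms
-/

open MeasureTheory Filter Topology Complex
open scoped ENNReal NNReal

namespace Pool.Agent.J4H97.SG

/-- The integrated kernel. -/
noncomputable def qk (T x : ℝ) : ℂ := ∫ ξ in (0:ℝ)..T, ek (ξ * x)

lemma qk_norm_le {T : ℝ} (hT : 0 ≤ T) (x : ℝ) : ‖qk T x‖ ≤ T := by
  unfold qk
  have := intervalIntegral.norm_integral_le_of_norm_le_const (a := (0:ℝ)) (b := T) (C := 1)
    (f := fun ξ => ek (ξ * x)) (fun ξ _ => by rw [norm_ek])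
  rw [sub_zero, abs_of_nonneg hT, one_mul] at this
  exact this

lemma qk_norm_le' {x : ℝ} (hx : x ≠ 0) (T : ℝ) : ‖qk T x‖ ≤ 1 / |x| := by
  have hc : ((-2 * Real.pi * x : ℝ) : ℂ) * I ≠ 0 := by
    have : (-2 * Real.pi * x : ℝ) ≠ 0 := by
      have := Real.pi_pos
      positivity
    exact mul_ne_zero (by exact_mod_cast this) I_ne_zero
  have e : qk T x = (Complex.exp ((((-2 * Real.pi * x : ℝ) : ℂ) * I) * T) -
      Complex.exp ((((-2 * Real.pi * x : ℝ) : ℂ) * I) * (0:ℝ))) /
      (((-2 * Real.pi * x : ℝ) : ℂ) * I) := by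
    rw [← integral_exp_mul_complex hc]
    unfold qk ek
    refine intervalIntegral.integral_congr fun ξ _ => ?_
    congr 1
    push_cast
    ring
  rw [e, norm_div]
  have h1 : ‖Complex.exp ((((-2 * Real.pi * x : ℝ) : ℂ) * I) * T)‖ = 1 := by
    have : (((-2 * Real.pi * x : ℝ) : ℂ) * I) * T = ((-2 * Real.pi * x * T : ℝ) : ℂ) * I := by
      push_cast; ring
    rw [this, Complex.norm_exp_ofReal_mul_I]
  have h2 : ‖Complex.exp ((((-2 * Real.pi * x : ℝ) : ℂ) * I) * T) -
      Complex.exp ((((-2 * Real.pi * x : ℝ) : ℂ) * I) * (0:ℝ))‖ ≤ 2 := by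
    refine (norm_sub_le _ _).trans ?_
    rw [h1]
    simp
    norm_num
  have h3 : ‖((-2 * Real.pi * x : ℝ) : ℂ) * I‖ = 2 * Real.pi * |x| := by
    rw [norm_mul, Complex.norm_I, mul_one, Complex.norm_real, Real.norm_eq_abs, abs_mul, abs_mul,
      abs_of_pos Real.pi_pos]
    norm_num
  rw [h3]
  have hx' : 0 < |x| := abs_pos.2 hx
  have hpi := Real.pi_gt_three
  rw [div_le_div_iff₀ (by positivity) hx']
  nlinarith

lemma integral_ek_shift (b T x : ℝ) : ∫ ξ in b..(b + T), ek (ξ * x) = ek (b * x) * qk T x := by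
  unfold qk
  rw [← intervalIntegral.integral_const_mul]
  have := intervalIntegral.integral_comp_add_right (a := 0) (b := T) (fun ξ => ek (ξ * x)) b
  rw [zero_add, add_comm T b] at this
  rw [← this]
  refine intervalIntegral.integral_congr fun ξ _ => ?_
  rw [← ek_add]
  congr 1
  ring

lemma continuous_qk (T : ℝ) : Continuous (qk T) := by
  unfold qk
  have : Continuous (Function.uncurry fun x ξ : ℝ => ek (ξ * x)) := by
    exact continuous_ek.comp (by fun_prop)
  exact intervalIntegral.continuous_parametric_intervalIntegral_of_continuous' this 0 T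

/-- Fubini for the kernel. -/
lemma integral_swap {P : Measure (ℝ × ℂ)} [IsFiniteMeasure P] {C : ℝ}
    (h : ∀ᵐ p ∂P, ‖p.2‖ ≤ C) (b T : ℝ) (hT : 0 ≤ T) :
    ∫ ξ in b..(b + T), (∫ p, p.2 * ek (ξ * p.1) ∂P) =
      ∫ p, p.2 * (ek (b * p.1) * qk T p.1) ∂P := by
  rw [intervalIntegral.integral_of_le (by linarith)]
  rw [integral_integral_swap]
  · congr 1
    ext p
    rw [integral_const_mul, ← intervalIntegral.integral_of_le (by linarith), integral_ek_shift]
  · have hb : ∀ᵐ q ∂((volume.restrict (Set.Ioc b (b + T))).prod P), ‖q.2.2‖ ≤ C :=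
      Measure.quasiMeasurePreserving_snd.ae h
    refine Integrable.of_bound ?_ C ?_
    · have : Measurable (fun q : ℝ × (ℝ × ℂ) => q.2.2 * ek (q.1 * q.2.1)) := by
        refine Measurable.mul (by fun_prop) (measurable_ek.comp (by fun_prop))
      exact this.aestronglyMeasurable
    · filter_upwards [hb] with q hq
      simp only [Function.uncurry]
      rw [norm_mul, norm_ek, mul_one]
      exact hq

/-- The means of a Fourier-Stieltjes transform over long windows are nearly independent of the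
window. -/
lemma Rep.mean {C : ℝ} {F : ℝ → ℂ} (hF : Rep C F) {ε : ℝ} (hε : 0 < ε) :
    ∃ N : ℕ, ∀ n : ℕ, N ≤ n → ∀ b b' : ℝ,
      ‖(∫ ξ in b..(b + n), F ξ) - ∫ ξ in b'..(b' + n), F ξ‖ ≤ ε * n := by
  have hC := hF.nonneg
  obtain ⟨P, hP, hb, hF⟩ := hF
  set w : ℕ → ℝ × ℂ → ℝ := fun n p => if p.1 = 0 then 0 else 2 * C * (‖qk n p.1‖ / n) with hw
  have hwm : ∀ n, Measurable (w n) := by
    intro n
    refine Measurable.ite ?_ measurable_const ?_
    · exact measurable_fst (measurableSet_singleton (0:ℝ))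
    · exact measurable_const.mul ((((continuous_qk n).measurable.comp measurable_fst).norm).div_const _)
  have hwb : ∀ n p, ‖w n p‖ ≤ 2 * C := by
    intro n p
    simp only [hw]
    split_ifs
    · simp [hC]
    · rw [Real.norm_of_nonneg (by positivity)]
      have : ‖qk n p.1‖ / n ≤ 1 := div_le_one_of_le₀ (qk_norm_le (Nat.cast_nonneg n) _)
        (Nat.cast_nonneg n)
      nlinarith
  have hlim : Tendsto (fun n => ∫ p, w n p ∂P) atTop (𝓝 (∫ p, (0:ℝ) ∂P)) := by
    refine tendsto_integral_of_dominated_convergence (fun _ => 2 * C) ?_ (integrable_const _) ?_ ?_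
    · exact fun n => (hwm n).aestronglyMeasurable
    · exact fun n => Eventually.of_forall (hwb n)
    · refine Eventually.of_forall fun p => ?_
      simp only [hw]
      split_ifs with hp
      · exact tendsto_const_nhds
      · have h1 : Tendsto (fun n : ℕ => 2 * C * ((1 / |p.1|) / (n:ℝ))) atTop (𝓝 0) := by
          have := (tendsto_const_div_atTop_nhds_zero_nat (1 / |p.1|)).const_mul (2 * C)
          simpa using this
        refine squeeze_zero (fun n => by positivity) (fun n => ?_) h1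
        have := qk_norm_le' hp n
        gcongr
  rw [integral_zero] at hlim
  have h2 := (hlim.eventually (gt_mem_nhds hε))
  rw [eventually_atTop] at h2
  obtain ⟨N, hN⟩ := h2
  refine ⟨max N 1, fun n hn b b' => ?_⟩
  have hn1 : (0:ℝ) < n := by
    have : 1 ≤ n := le_trans (le_max_right _ _) hn
    exact_mod_cast this
  have hNn := hN n (le_trans (le_max_left _ _) hn)
  simp only [hF]
  rw [integral_swap hb b n hn1.le, integral_swap hb b' n hn1.le, ← integral_sub]
  · have h3 : ‖∫ p, (p.2 * (ek (b * p.1) * qk n p.1) - p.2 * (ek (b' * p.1) * qk n p.1)) ∂P‖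
        ≤ ∫ p, n * w n p ∂P := by
      refine norm_integral_le_of_norm_le ?_ ?_
      · exact (Integrable.of_bound (hwm n).aestronglyMeasurable (2 * C)
          (Eventually.of_forall (hwb n))).const_mul _
      · filter_upwards [hb] with p hp
        simp only [hw]
        split_ifs with h0
        · simp [h0]
        · have : p.2 * (ek (b * p.1) * qk n p.1) - p.2 * (ek (b' * p.1) * qk n p.1) =
              p.2 * ((ek (b * p.1) - ek (b' * p.1)) * qk n p.1) := by ring
          rw [this, norm_mul, norm_mul]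
          have h4 : ‖ek (b * p.1) - ek (b' * p.1)‖ ≤ 2 := by
            refine (norm_sub_le _ _).trans ?_
            rw [norm_ek, norm_ek]; norm_num
          have h5 : (n:ℝ) * (2 * C * (‖qk n p.1‖ / n)) = C * (2 * ‖qk n p.1‖) := by
            field_simp
          rw [h5]
          gcongr
    refine h3.trans ?_
    rw [integral_const_mul, mul_comm]
    exact mul_le_mul_of_nonneg_right hNn.le hn1.le
  · refine Integrable.of_bound (C := C * n) ?_ ?_
    · exact (measurable_snd.mul ((measurable_ek.comp (measurable_const.mul measurable_fst)).mul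
        ((continuous_qk n).measurable.comp measurable_fst))).aestronglyMeasurable
    · filter_upwards [hb] with p hp
      rw [norm_mul, norm_mul, norm_ek, one_mul]
      exact mul_le_mul hp (qk_norm_le hn1.le _) (norm_nonneg _) hC
  · refine Integrable.of_bound (C := C * n) ?_ ?_
    · exact (measurable_snd.mul ((measurable_ek.comp (measurable_const.mul measurable_fst)).mul
        ((continuous_qk n).measurable.comp measurable_fst))).aestronglyMeasurable
    · filter_upwards [hb] with p hp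
      rw [norm_mul, norm_mul, norm_ek, one_mul]
      exact mul_le_mul hp (qk_norm_le hn1.le _) (norm_nonneg _) hC

/-- Wiener's lemma for a continuous measure. -/
lemma wiener {m : Measure (ℝ × ℂ)} [IsFiniteMeasure m] {C : ℝ} (hC : 0 ≤ C)
    (h : ∀ᵐ p ∂m, ‖p.2‖ ≤ C) (hd : ∀ᵐ q ∂(m.prod m), q.1.1 ≠ q.2.1) :
    Tendsto (fun n : ℕ => (∫ ξ in (0:ℝ)..n, ‖∫ p, p.2 * ek (ξ * p.1) ∂m‖ ^ 2) / n) atTop
      (𝓝 0) := by
  have hb1 : ∀ᵐ q ∂(m.prod m), ‖q.1.2‖ ≤ C := Measure.quasiMeasurePreserving_fst.ae h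
  have hb2 : ∀ᵐ q ∂(m.prod m), ‖q.2.2‖ ≤ C := Measure.quasiMeasurePreserving_snd.ae h
  -- the square as a double integral
  have e1 : ∀ ξ : ℝ, ((‖∫ p, p.2 * ek (ξ * p.1) ∂m‖ ^ 2 : ℝ) : ℂ) =
      ∫ q : (ℝ × ℂ) × (ℝ × ℂ), (q.1.2 * (starRingEnd ℂ) q.2.2) * ek (ξ * (q.1.1 - q.2.1))
        ∂(m.prod m) := by
    intro ξ
    rw [Complex.ofReal_pow, ← Complex.mul_conj', ← integral_conj, ← integral_prod_mul]
    congr 1
    ext q
    rw [mul_sub, sub_eq_add_neg, ek_add, ek_neg, map_mul]
    ring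
  have e2 : ∀ n : ℕ, ((∫ ξ in (0:ℝ)..n, ‖∫ p, p.2 * ek (ξ * p.1) ∂m‖ ^ 2 : ℝ) : ℂ) =
      ∫ q : (ℝ × ℂ) × (ℝ × ℂ), (q.1.2 * (starRingEnd ℂ) q.2.2) * qk n (q.1.1 - q.2.1)
        ∂(m.prod m) := by
    intro n
    rw [← intervalIntegral.integral_ofReal]
    simp_rw [e1]
    rw [intervalIntegral.integral_of_le (Nat.cast_nonneg n), integral_integral_swap]
    · congr 1
      ext q
      rw [integral_const_mul, ← intervalIntegral.integral_of_le (Nat.cast_nonneg n)]
      rfl
    · have hb1' : ∀ᵐ q ∂((volume.restrict (Set.Ioc (0:ℝ) n)).prod (m.prod m)), ‖q.2.1.2‖ ≤ C :=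
        Measure.quasiMeasurePreserving_snd.ae hb1
      have hb2' : ∀ᵐ q ∂((volume.restrict (Set.Ioc (0:ℝ) n)).prod (m.prod m)), ‖q.2.2.2‖ ≤ C :=
        Measure.quasiMeasurePreserving_snd.ae hb2
      refine Integrable.of_bound (C := C * C) ?_ ?_
      · have : Measurable (fun q : ℝ × ((ℝ × ℂ) × (ℝ × ℂ)) =>
            (q.2.1.2 * (starRingEnd ℂ) q.2.2.2) * ek (q.1 * (q.2.1.1 - q.2.2.1))) := by
          refine Measurable.mul (Measurable.mul (by fun_prop) ?_) (measurable_ek.comp (by fun_prop))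
          exact Complex.continuous_conj.measurable.comp (by fun_prop)
        exact this.aestronglyMeasurable
      · filter_upwards [hb1', hb2'] with q h1 h2
        simp only [Function.uncurry]
        rw [norm_mul, norm_ek, mul_one, norm_mul, RCLike.norm_conj]
        exact mul_le_mul h1 h2 (norm_nonneg _) hC
  -- domination
  have hlim : Tendsto (fun n : ℕ => ∫ q : (ℝ × ℂ) × (ℝ × ℂ), C * C * (‖qk n (q.1.1 - q.2.1)‖ / n)
      ∂(m.prod m)) atTop (𝓝 (∫ q : (ℝ × ℂ) × (ℝ × ℂ), (0:ℝ) ∂(m.prod m))) := by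
    refine tendsto_integral_of_dominated_convergence (fun _ => C * C) ?_ (integrable_const _) ?_ ?_
    · intro n
      have : Measurable (fun q : (ℝ × ℂ) × (ℝ × ℂ) => C * C * (‖qk n (q.1.1 - q.2.1)‖ / n)) := by
        refine measurable_const.mul (Measurable.div_const ?_ _)
        exact ((continuous_qk n).measurable.comp (by fun_prop)).norm
      exact this.aestronglyMeasurable
    · intro n
      refine Eventually.of_forall fun q => ?_
      rw [Real.norm_of_nonneg (by positivity)]
      have : ‖qk n (q.1.1 - q.2.1)‖ / n ≤ 1 := div_le_one_of_le₀ (qk_norm_le (Nat.cast_nonneg n) _)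
        (Nat.cast_nonneg n)
      nlinarith [mul_nonneg hC hC]
    · filter_upwards [hd] with q hq
      have hq' : q.1.1 - q.2.1 ≠ 0 := sub_ne_zero.2 hq
      have h1 : Tendsto (fun n : ℕ => C * C * ((1 / |q.1.1 - q.2.1|) / (n:ℝ))) atTop (𝓝 0) := by
        have := (tendsto_const_div_atTop_nhds_zero_nat (1 / |q.1.1 - q.2.1|)).const_mul (C * C)
        simpa using this
      refine squeeze_zero (fun n => by positivity) (fun n => ?_) h1
      have := qk_norm_le' hq' n
      gcongr
  rw [integral_zero] at hlim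
  refine squeeze_zero (fun n => ?_) (fun n => ?_) hlim
  · refine div_nonneg ?_ (Nat.cast_nonneg n)
    exact intervalIntegral.integral_nonneg (Nat.cast_nonneg n) (fun ξ _ => by positivity)
  · have h0 : (0:ℝ) ≤ ∫ ξ in (0:ℝ)..n, ‖∫ p, p.2 * ek (ξ * p.1) ∂m‖ ^ 2 :=
      intervalIntegral.integral_nonneg (Nat.cast_nonneg n) (fun ξ _ => by positivity)
    have h1 : (∫ ξ in (0:ℝ)..n, ‖∫ p, p.2 * ek (ξ * p.1) ∂m‖ ^ 2) ≤
        ∫ q : (ℝ × ℂ) × (ℝ × ℂ), C * C * ‖qk n (q.1.1 - q.2.1)‖ ∂(m.prod m) := by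
      have : ‖((∫ ξ in (0:ℝ)..n, ‖∫ p, p.2 * ek (ξ * p.1) ∂m‖ ^ 2 : ℝ) : ℂ)‖ ≤
          ∫ q : (ℝ × ℂ) × (ℝ × ℂ), C * C * ‖qk n (q.1.1 - q.2.1)‖ ∂(m.prod m) := by
        rw [e2]
        refine norm_integral_le_of_norm_le ?_ ?_
        · refine Integrable.of_bound (C := C * C * n) ?_ ?_
          · have : Measurable (fun q : (ℝ × ℂ) × (ℝ × ℂ) => C * C * ‖qk n (q.1.1 - q.2.1)‖) := by
              refine measurable_const.mul ?_
              exact ((continuous_qk n).measurable.comp (by fun_prop)).norm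
            exact this.aestronglyMeasurable
          · refine Eventually.of_forall fun q => ?_
            rw [Real.norm_of_nonneg (by positivity)]
            exact mul_le_mul_of_nonneg_left (qk_norm_le (Nat.cast_nonneg n) _) (by positivity)
        · filter_upwards [hb1, hb2] with q h1 h2
          rw [norm_mul, norm_mul, RCLike.norm_conj]
          gcongr
      rwa [Complex.norm_real, Real.norm_of_nonneg h0] at this
    have h2 : ∫ q : (ℝ × ℂ) × (ℝ × ℂ), C * C * (‖qk n (q.1.1 - q.2.1)‖ / n) ∂(m.prod m) =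
        (∫ q : (ℝ × ℂ) × (ℝ × ℂ), C * C * ‖qk n (q.1.1 - q.2.1)‖ ∂(m.prod m)) / n := by
      rw [← integral_div]
      congr 1
      ext q
      ring
    rw [h2]
    exact div_le_div_of_nonneg_right h1 (Nat.cast_nonneg n)

/-- A nonnegative function with mean zero has long windows with small integral. -/
lemma gap {u : ℝ → ℝ} (hu : Continuous u) 
    (hm : Tendsto (fun n : ℕ => (∫ ξ in (0:ℝ)..n, u ξ) / n) atTop (𝓝 0)) {R : ℕ} (hR : 0 < R)
    {δ : ℝ} (hδ : 0 < δ) : ∃ a : ℝ, ∫ ξ in a..(a + R), u ξ ≤ δ := by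
  by_contra hcon
  push Not at hcon
  have h1 : ∀ N : ℕ, δ * N ≤ ∫ ξ in (0:ℝ)..((N * R : ℕ) : ℝ), u ξ := by
    intro N
    induction N with
    | zero => simp
    | succ N ih =>
      have := hcon ((N * R : ℕ) : ℝ)
      have e : (((N + 1) * R : ℕ) : ℝ) = ((N * R : ℕ) : ℝ) + R := by push_cast; ring
      rw [e, ← intervalIntegral.integral_add_adjacent_intervals (hu.intervalIntegrable _ _)
        (hu.intervalIntegrable _ _)]
      push_cast at *
      linarith
  have hR' : (0:ℝ) < R := by exact_mod_cast hR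
  have h2 : Tendsto (fun N : ℕ => (∫ ξ in (0:ℝ)..((N * R : ℕ) : ℝ), u ξ) / ((N * R : ℕ) : ℝ)) atTop
      (𝓝 0) := by
    refine hm.comp ?_
    exact tendsto_id.atTop_mul_const' hR
  have h3 := (h2.eventually (gt_mem_nhds (show (0:ℝ) < δ / R by positivity)))
  rw [eventually_atTop] at h3
  obtain ⟨N, hN⟩ := h3
  have h4 := hN (N + 1) (by omega)
  have h5 := h1 (N + 1)
  rw [div_lt_div_iff₀ (by positivity) hR'] at h4
  push_cast at *
  nlinarith

end Pool.Agent.J4H97.SG
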